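import Mathlib

/-!
# Point-finite tilings of reflexive spaces: separated normals, and balls of non-square norms

Let `T` be a tiling of an infinite-dimensional reflexive space by closed convex sets and `T i₀` a
bounded tile.  If the norm-one functionals separating `T i₀` from the tiles near any of its points
contain infinite uniformly separated sets, then some point of `T i₀` lies in infinitely many tiles.
For tilings by balls with radii bounded below this condition holds as soon as the norm is uniformly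
non-square, so such tilings are never point-finite.

Idea.  Near a point `y` which has a ball meeting only finitely many tiles, the intersection `F` of
the tiles containing `y` is relatively open in an affine subspace of finite codimension.  If all
relative boundary points of `F` were accumulation points of tiles, one could choose unit vectors
`u k` and separating functionals `f k` with `f k (u i) ≥ c₀` for `i ≤ k` and `f i (u k) = 0` for
`i < k`, which is impossible in a reflexive space.  So there is a locally finite point contained in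
strictly more tiles; iterate and pass to a weak limit.
-/

open Metric Set Filter Topology

namespace Pool.Agent.Results.MP_73700b_an.BallTilings

section core

variable {ι X : Type*} [NormedAddCommGroup X] [NormedSpace ℝ X]

lemma pigeon (f : ι → StrongDual ℝ X) {lam B : ℝ} (hlam : 0 < lam)
    (T : Set (StrongDual ℝ X)) (hT : T.Finite)
    (E : Set ι) (hE : E.Infinite) (hsep : ∀ i ∈ E, ∀ j ∈ E, i ≠ j → lam ≤ ‖f i - f j‖)
    (hB : ∀ j ∈ E, ‖f j‖ ≤ B) :
    ∃ j ∈ E, ∃ u : X, (∀ g ∈ T, g u = 0) ∧ ‖u‖ = 1 ∧ lam / 8 ≤ f j u := by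
  classical
  by_contra hcon
  push Not at hcon
  have : Finite T := hT
  have _ := Fintype.ofFinite T
  set W : Submodule ℝ X := ⨅ i : T, LinearMap.ker ((i : StrongDual ℝ X) : X →ₗ[ℝ] ℝ) with hW
  have hWmem : ∀ w ∈ W, ∀ g ∈ T, g w = 0 := by
    intro w hw i hi
    have := (Submodule.mem_iInf _).1 hw ⟨i, hi⟩
    simpa using this
  have habs : ∀ j ∈ E, ∀ w ∈ W, ‖f j w‖ ≤ lam / 8 * ‖w‖ := by
    intro j hj w hw
    have aux : ∀ v ∈ W, f j v ≤ lam / 8 * ‖v‖ := by
      intro v hv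
      by_cases hv0 : v = 0
      · simp [hv0]
      · have hpos : 0 < ‖v‖ := norm_pos_iff.2 hv0
        have h1 := hcon j hj ((‖v‖)⁻¹ • v) (fun i hi => by simp [hWmem v hv i hi])
          (by rw [norm_smul, norm_inv, norm_norm, inv_mul_cancel₀ hpos.ne'])
        rw [map_smul, smul_eq_mul, inv_mul_eq_div, div_lt_iff₀ hpos] at h1
        exact h1.le
    have h1 := aux w hw
    have h2 := aux (-w) (W.neg_mem hw)
    rw [map_neg, norm_neg] at h2
    rw [Real.norm_eq_abs, abs_le]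
    constructor <;> linarith
  have hext : ∀ j ∈ E, ∃ g : StrongDual ℝ X, ‖g‖ ≤ lam / 8 ∧
      f j - g ∈ Submodule.span ℝ T := by
    intro j hj
    obtain ⟨g, hg1, hg2⟩ := exists_extension_norm_eq W ((f j).comp W.subtypeL)
    refine ⟨g, ?_, ?_⟩
    · rw [hg2]
      refine ContinuousLinearMap.opNorm_le_bound _ (by positivity) fun w => ?_
      exact habs j hj w w.2
    · have hker : (⨅ i : T, LinearMap.ker ((i : StrongDual ℝ X) : X →ₗ[ℝ] ℝ)) ≤
          LinearMap.ker ((f j - g : StrongDual ℝ X) : X →ₗ[ℝ] ℝ) := by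
        intro w hw
        have h := hg1 ⟨w, hw⟩
        have h' : g w = f j w := h
        rw [LinearMap.mem_ker]
        show f j w - g w = 0
        rw [h', sub_self]
      have h1 := mem_span_of_iInf_ker_le_ker hker
      rw [Submodule.mem_span_range_iff_exists_fun] at h1
      obtain ⟨c, hc⟩ := h1
      have : f j - g = ∑ i : T, c i • (i : StrongDual ℝ X) := by
        ext x
        have := LinearMap.congr_fun hc x
        simpa using this.symm
      rw [this]
      exact Submodule.sum_mem _ fun i _ =>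
        Submodule.smul_mem _ _ (Submodule.subset_span i.2)
  choose! g hg1 hg2 using hext
  set G := Submodule.span ℝ T with hG
  have : FiniteDimensional ℝ G := FiniteDimensional.span_of_finite ℝ hT
  have : ProperSpace G := FiniteDimensional.proper ℝ G
  have hcpt : IsCompact (closedBall (0 : G) (B + lam / 8)) := isCompact_closedBall _ _
  obtain ⟨t, htf, ht⟩ := Metric.totallyBounded_iff.1 hcpt.totallyBounded (lam / 8) (by positivity)
  have hch : ∀ j ∈ E, ∃ x ∈ t, ‖f j - g j - (x : StrongDual ℝ X)‖ < lam / 8 := by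
    intro j hj
    have hmem : (⟨f j - g j, hg2 j hj⟩ : G) ∈ closedBall (0 : G) (B + lam / 8) := by
      have hn : ‖f j - g j‖ ≤ B + lam / 8 :=
        (norm_sub_le _ _).trans (add_le_add (hB j hj) (hg1 j hj))
      rw [mem_closedBall, Subtype.dist_eq, dist_eq_norm]
      simpa using hn
    have := ht hmem
    simp only [mem_iUnion, mem_ball, exists_prop] at this
    obtain ⟨x, hx, hd⟩ := this
    refine ⟨x, hx, ?_⟩
    rw [Subtype.dist_eq, dist_eq_norm] at hd
    exact hd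
  choose! q hq1 hq2 using hch
  obtain ⟨i, hi, j, hj, hij, hqij⟩ := hE.exists_ne_map_eq_of_mapsTo (f := q) (t := t) hq1 htf
  have h1 := hq2 i hi
  have h2 := hq2 j hj
  rw [← hqij] at h2
  have h3 : f i - f j = (f i - g i - (q i : StrongDual ℝ X)) -
      (f j - g j - (q i : StrongDual ℝ X)) + (g i - g j) := by abel
  have h4 := hsep i hi j hj hij
  rw [h3] at h4
  have h5 := norm_add_le ((f i - g i - (q i : StrongDual ℝ X)) -
      (f j - g j - (q i : StrongDual ℝ X))) (g i - g j)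
  have h6 := norm_sub_le (f i - g i - (q i : StrongDual ℝ X)) (f j - g j - (q i : StrongDual ℝ X))
  have h7 := norm_sub_le (g i) (g j)
  linarith [hg1 i hi, hg1 j hj]

lemma exists_unit (T : Set (StrongDual ℝ X)) (hT : T.Finite)
    (hinf : ¬ FiniteDimensional ℝ X) : ∃ u : X, ‖u‖ = 1 ∧ ∀ g ∈ T, g u = 0 := by
  classical
  have : Finite T := hT
  by_contra hcon
  push Not at hcon
  apply hinf
  let L : X →ₗ[ℝ] (T → ℝ) := LinearMap.pi (fun i : T => ((i : StrongDual ℝ X) : X →ₗ[ℝ] ℝ))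
  have hL : Function.Injective L := by
    rw [← LinearMap.ker_eq_bot, LinearMap.ker_eq_bot']
    intro v hv
    by_contra hv0
    have hpos : 0 < ‖v‖ := norm_pos_iff.2 hv0
    obtain ⟨i, hi, hne⟩ := hcon ((‖v‖)⁻¹ • v)
      (by rw [norm_smul, norm_inv, norm_norm, inv_mul_cancel₀ hpos.ne'])
    apply hne
    have h1 : i v = 0 := congrFun hv ⟨i, hi⟩
    rw [map_smul, h1, smul_zero]
  exact Module.Finite.of_injective L hL

lemma wslim {Y : Type*} [NormedAddCommGroup Y] [NormedSpace ℝ Y] (φ : ℕ → StrongDual ℝ Y) (B : ℝ)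
    (hB : ∀ k, ‖φ k‖ ≤ B) (𝒰 : Ultrafilter ℕ) :
    ∃ ψ : StrongDual ℝ Y, ∀ y, Tendsto (fun k => φ k y) 𝒰 (𝓝 (ψ y)) := by
  have hc := WeakDual.isCompact_closedBall (𝕜 := ℝ) (E := Y) (0 : StrongDual ℝ Y) B
  obtain ⟨ψ, hψ1, hψ⟩ := hc.ultrafilter_le_nhds'
    (𝒰.map (fun k => StrongDual.toWeakDual (φ k))) (by
      rw [Ultrafilter.mem_map]
      apply Filter.univ_mem'
      intro k
      show φ k ∈ closedBall (0 : StrongDual ℝ Y) B
      rw [mem_closedBall_zero_iff]
      exact hB k)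
  refine ⟨WeakDual.toStrongDual ψ, fun y => ?_⟩
  have h1 : Tendsto (fun x : WeakDual ℝ Y => x y) (𝓝 ψ) (𝓝 (ψ y)) :=
    (WeakDual.eval_continuous y).tendsto ψ
  have h2 : Tendsto (fun k => StrongDual.toWeakDual (φ k)) (𝒰 : Filter ℕ) (𝓝 ψ) := hψ
  exact h1.comp h2

lemma wlim (hrefl : Function.Surjective (NormedSpace.inclusionInDoubleDual ℝ X)) (x : ℕ → X)
    (R : ℝ) (hR : ∀ k, ‖x k‖ ≤ R) (𝒰 : Ultrafilter ℕ) :
    ∃ z : X, ∀ g : StrongDual ℝ X, Tendsto (fun k => g (x k)) 𝒰 (𝓝 (g z)) := by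
  obtain ⟨ψ, hψ⟩ := wslim (fun k => NormedSpace.inclusionInDoubleDual ℝ X (x k)) R
    (fun k => (NormedSpace.double_dual_bound ℝ X (x k)).trans (hR k)) 𝒰
  obtain ⟨z, rfl⟩ := hrefl ψ
  exact ⟨z, fun g => by simpa using hψ g⟩

lemma james (hrefl : Function.Surjective (NormedSpace.inclusionInDoubleDual ℝ X))
    (u : ℕ → X) (φ : ℕ → StrongDual ℝ X) (B κ : ℝ) (hκ : 0 < κ)
    (hu : ∀ k, ‖u k‖ ≤ 1) (hφ : ∀ k, ‖φ k‖ ≤ B)
    (h1 : ∀ i k, i ≤ k → κ ≤ φ k (u i)) (h0 : ∀ i k, i < k → φ i (u k) = 0) : False := by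
  obtain ⟨z, hz⟩ := wlim hrefl u 1 hu (hyperfilter ℕ)
  obtain ⟨ψ, hψ⟩ := wslim φ B hφ (hyperfilter ℕ)
  have hcof : ∀ m : ℕ, ∀ᶠ k in ((hyperfilter ℕ : Ultrafilter ℕ) : Filter ℕ), m < k := fun m =>
    (eventually_gt_atTop m).filter_mono Nat.hyperfilter_le_atTop
  have ha : ∀ i, φ i z = 0 := fun i =>
    tendsto_nhds_unique (hz (φ i)) (tendsto_const_nhds.congr'
      ((hcof i).mono fun k hk => (h0 i k hk).symm))
  have hb : ψ z = 0 := tendsto_nhds_unique (hψ z) (by simp [ha])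
  have hc : ∀ i, κ ≤ ψ (u i) := fun i =>
    ge_of_tendsto (hψ (u i)) ((hcof i).mono fun k hk => h1 i k hk.le)
  have hd : κ ≤ ψ z := ge_of_tendsto (hz ψ) (Eventually.of_forall hc)
  linarith


/-- `T` is a tiling: closed convex sets with nonempty and pairwise disjoint interiors which
cover the space. -/
structure IsTiling (T : ι → Set X) : Prop where
  closed : ∀ i, IsClosed (T i)
  convex : ∀ i, Convex ℝ (T i)
  nonempty : ∀ i, (interior (T i)).Nonempty
  disjoint : ∀ i j, i ≠ j → Disjoint (interior (T i)) (interior (T j))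
  cover : ⋃ i, T i = univ

/-- Only finitely many tiles meet some ball around `p`. -/
def LocFin (T : ι → Set X) (p : X) : Prop := ∃ ε > 0, {j | (T j ∩ ball p ε).Nonempty}.Finite

/-- the tiles containing `p` -/
def tl (T : ι → Set X) (p : X) : Set ι := {j | p ∈ T j}

omit [NormedSpace ℝ X] in
lemma tl_fin {T : ι → Set X} {p : X} (h : LocFin T p) : (tl T p).Finite := by
  obtain ⟨ε, hε, hf⟩ := h
  exact hf.subset fun j hj => ⟨p, hj, mem_ball_self hε⟩

lemma sub_closure {T : ι → Set X} (hT : IsTiling T) (i : ι) : T i ⊆ closure (interior (T i)) := by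
  intro z hz
  obtain ⟨w, hw⟩ := hT.nonempty i
  have h1 : openSegment ℝ z w ⊆ interior (T i) :=
    Convex.openSegment_closure_interior_subset_interior (hT.convex i) (subset_closure hz) hw
  have h2 : z ∈ closure (openSegment ℝ z w) :=
    segment_subset_closure_openSegment (left_mem_segment ℝ z w)
  exact closure_mono h1 h2

/-- separating functionals -/
lemma sep_pair {T : ι → Set X} (hT : IsTiling T) (i j : ι) (hij : i ≠ j) :
    ∃ (h : StrongDual ℝ X) (c : ℝ), ‖h‖ = 1 ∧ (∀ z ∈ T i, h z ≤ c) ∧ (∀ z ∈ T j, c ≤ h z) ∧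
      (∀ z ∈ interior (T i), h z < c) := by
  obtain ⟨g, u, h1, h2⟩ := geometric_hahn_banach_open_open (hT.convex i).interior isOpen_interior
    (hT.convex j).interior isOpen_interior (hT.disjoint i j hij)
  obtain ⟨a, ha⟩ := hT.nonempty i
  obtain ⟨b, hb⟩ := hT.nonempty j
  have hg : g ≠ 0 := by
    rintro rfl
    have h3 := h1 a ha
    have h4 := h2 b hb
    simp at h3 h4
    linarith
  have hpos : 0 < ‖g‖ := norm_pos_iff.2 hg
  have e : ∀ z, (‖g‖⁻¹ • g) z = ‖g‖⁻¹ * g z := fun z => rfl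
  refine ⟨‖g‖⁻¹ • g, ‖g‖⁻¹ * u, ?_, ?_, ?_, ?_⟩
  · rw [norm_smul, norm_inv, norm_norm, inv_mul_cancel₀ hpos.ne']
  · intro z hz
    have hcl : closure (interior (T i)) ⊆ {z | g z ≤ u} :=
      closure_minimal (fun z hz => (h1 z hz).le) (isClosed_le g.continuous continuous_const)
    rw [e]
    exact mul_le_mul_of_nonneg_left (hcl (sub_closure hT i hz)) (by positivity)
  · intro z hz
    have hcl : closure (interior (T j)) ⊆ {z | u ≤ g z} :=
      closure_minimal (fun z hz => (h2 z hz).le) (isClosed_le continuous_const g.continuous)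
    rw [e]
    exact mul_le_mul_of_nonneg_left (hcl (sub_closure hT j hz)) (by positivity)
  · intro z hz
    rw [e]
    exact mul_lt_mul_of_pos_left (h1 z hz) (by positivity)

lemma good {T : ι → Set X} (hT : IsTiling T) (H : ι → ι → StrongDual ℝ X) (c : ι → ι → ℝ)
    (hH : ∀ i j, i ≠ j → ‖H i j‖ = 1 ∧ (∀ z ∈ T i, H i j z ≤ c i j) ∧
      (∀ z ∈ T j, c i j ≤ H i j z) ∧ (∀ z ∈ interior (T i), H i j z < c i j))
    {y : X} (hns : LocFin T y) :
    ∃ δ > 0, ∀ v, ‖v‖ ≤ δ → (∀ j ∈ tl T y, ∀ k ∈ tl T y, j ≠ k → H j k v = 0) →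
      ∀ j ∈ tl T y, y + v ∈ T j := by
  obtain ⟨ε, hε, hf⟩ := hns
  have h1 : ∀ᶠ z in 𝓝 y, ∀ j ∈ {j | (T j ∩ ball y ε).Nonempty}, j ∉ tl T y → z ∉ T j := by
    rw [Filter.eventually_all_finite hf]
    intro j _
    by_cases hj : j ∈ tl T y
    · exact Eventually.of_forall fun z h => absurd hj h
    · have : ∀ᶠ z in 𝓝 y, z ∈ (T j)ᶜ := (hT.closed j).isOpen_compl.mem_nhds hj
      exact this.mono fun z hz _ => hz
  have h2 : ∀ᶠ z in 𝓝 y, z ∈ ball y ε := ball_mem_nhds y hε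
  have h3 : ∀ᶠ z in 𝓝 y, ∃ j ∈ tl T y, z ∈ T j := by
    filter_upwards [h1, h2] with z hz1 hz2
    have : z ∈ ⋃ i, T i := by rw [hT.cover]; trivial
    obtain ⟨j, hj⟩ := mem_iUnion.1 this
    by_cases hjy : j ∈ tl T y
    · exact ⟨j, hjy, hj⟩
    · exact absurd hj (hz1 j ⟨z, hj, hz2⟩ hjy)
  obtain ⟨δ, hδ, hball⟩ := Metric.eventually_nhds_iff.1 h3
  refine ⟨δ / 2, by positivity, fun v hv hv0 j hj => ?_⟩
  obtain ⟨w, hw⟩ := hT.nonempty j
  have hcont : Continuous (fun t : ℝ => (y + v) + t • (w - (y + v))) := by fun_prop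
  have htend : Tendsto (fun t : ℝ => (y + v) + t • (w - (y + v))) (𝓝[>] 0) (𝓝 (y + v)) := by
    have := hcont.tendsto 0
    simp only [zero_smul, add_zero] at this
    exact this.mono_left nhdsWithin_le_nhds
  have hyv : y + v ∈ ball y δ := by
    rw [mem_ball, dist_eq_norm, add_sub_cancel_left]; linarith
  have h4 : ∀ᶠ t : ℝ in 𝓝[>] 0, (y + v) + t • (w - (y + v)) ∈ ball y δ :=
    htend (isOpen_ball.mem_nhds hyv)
  have h5 : ∀ᶠ t : ℝ in 𝓝[>] 0, 0 < t := eventually_mem_nhdsWithin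
  have h6 : ∀ᶠ t : ℝ in 𝓝[>] 0, (y + v) + t • (w - (y + v)) ∈ T j := by
    filter_upwards [h4, h5] with t ht1 ht2
    obtain ⟨k, hk, hkt⟩ := hball ht1
    by_cases hkj : k = j
    · rw [← hkj]; exact hkt
    · exfalso
      have hne : j ≠ k := fun h => hkj h.symm
      obtain ⟨_, hle, hge, hlt⟩ := hH j k hne
      have e1 : H j k y = c j k := le_antisymm (hle y hj) (hge y hk)
      have e2 : H j k v = 0 := hv0 j hj k hk hne
      have e3 := hlt w hw
      have e4 := hge _ hkt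
      rw [map_add, map_smul, map_sub, map_add, e1, e2, smul_eq_mul] at e4
      nlinarith
  exact (hT.closed j).mem_of_tendsto htend h6


/-- the functionals which vanish on the directions of the face of the tiles in `A` -/
def LA (H : ι → ι → StrongDual ℝ X) (A : Set ι) : Set (StrongDual ℝ X) :=
  {g | ∃ j ∈ A, ∃ k ∈ A, j ≠ k ∧ g = H j k}

lemma LA_fin (H : ι → ι → StrongDual ℝ X) {A : Set ι} (hA : A.Finite) : (LA H A).Finite := by
  refine ((hA.prod hA).image (fun q : ι × ι => H q.1 q.2)).subset ?_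
  rintro g ⟨j, hj, k, hk, _, rfl⟩
  exact ⟨(j, k), ⟨hj, hk⟩, rfl⟩

lemma exit {T : ι → Set X} (hT : IsTiling T) (H : ι → ι → StrongDual ℝ X) (c : ι → ι → ℝ)
    (hH : ∀ i j, i ≠ j → ‖H i j‖ = 1 ∧ (∀ z ∈ T i, H i j z ≤ c i j) ∧
      (∀ z ∈ T j, c i j ≤ H i j z) ∧ (∀ z ∈ interior (T i), H i j z < c i j))
    {i₀ : ι} {R : ℝ} (hR : ∀ z ∈ T i₀, ‖z‖ ≤ R)
    {A : Set ι} (hi₀ : i₀ ∈ A)
    (hcon : ∀ p, A ⊆ tl T p → LocFin T p → ¬ (A ⊂ tl T p))
    {b u : X} (hbA : A ⊆ tl T b) (hu : ‖u‖ = 1) (huA : ∀ g ∈ LA H A, g u = 0) :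
    ∃ τ : ℝ, 0 ≤ τ ∧ A ⊆ tl T (b + τ • u) ∧ ¬ LocFin T (b + τ • u) := by
  set S : Set ℝ := {τ : ℝ | 0 ≤ τ ∧ A ⊆ tl T (b + τ • u)} with hS
  have hS0 : (0 : ℝ) ∈ S := ⟨le_rfl, by simpa using hbA⟩
  have hSb : BddAbove S := by
    refine ⟨R + ‖b‖, fun τ hτ => ?_⟩
    have h1 : ‖b + τ • u‖ ≤ R := hR _ (hτ.2 hi₀)
    have h2 : ‖τ • u‖ = τ := by rw [norm_smul, hu, mul_one, Real.norm_of_nonneg hτ.1]
    have h3 : τ • u = (b + τ • u) - b := by abel
    have h4 := norm_sub_le (b + τ • u) b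
    rw [← h3, h2] at h4
    linarith
  have hSc : IsClosed S := by
    have : S = {τ : ℝ | 0 ≤ τ} ∩ ⋂ j ∈ A, (fun τ : ℝ => b + τ • u) ⁻¹' (T j) := by
      ext τ
      simp [hS, tl, Set.subset_def]
    rw [this]
    exact (isClosed_le continuous_const continuous_id).inter
      (isClosed_biInter fun j _ => (hT.closed j).preimage (by fun_prop))
  have hmem : sSup S ∈ S := hSc.csSup_mem ⟨0, hS0⟩ hSb
  refine ⟨sSup S, hmem.1, hmem.2, fun hns => ?_⟩
  obtain ⟨δ, hδ, hgood⟩ := good hT H c hH hns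
  have hact : tl T (b + sSup S • u) ⊆ A := by
    by_contra hnot
    exact hcon _ hmem.2 hns ⟨hmem.2, hnot⟩
  have h5 : A ⊆ tl T (b + sSup S • u + δ • u) := by
    intro j hj
    refine hgood (δ • u) ?_ ?_ j (hmem.2 hj)
    · rw [norm_smul, hu, mul_one, Real.norm_of_nonneg hδ.le]
    · intro k hk l hl hkl
      rw [map_smul, huA _ ⟨k, hact hk, l, hact hl, hkl, rfl⟩, smul_zero]
  have h6 : sSup S + δ ∈ S := by
    refine ⟨by linarith [hmem.1], ?_⟩
    rw [add_smul, ← add_assoc]; exact h5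
  have := le_csSup hSb h6
  linarith

/-- The data carried along in the proof of `step`. -/
structure St (ι X : Type*) [NormedAddCommGroup X] [NormedSpace ℝ X] where
  p : X
  ε : ℝ
  G : Set (StrongDual ℝ X)
  Us : Set X
  u : X
  j : ι

/-- The tile `T i₀` has separated normals: there are norm-one functionals `h i` separating `T i₀`
from `T i` and a number `lam > 0` such that whenever every ball around a point `p` of `T i₀` meets
infinitely many tiles, then for each `ε > 0` there are infinitely many tiles `T i` meeting the ball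
`B(p, ε)` whose functionals `h i` have mutual distances at least `lam`. -/
def SeparatedNormals (T : ι → Set X) (i₀ : ι) : Prop :=
  ∃ (h : ι → StrongDual ℝ X) (c : ι → ℝ) (lam : ℝ), 0 < lam ∧
    (∀ i, i ≠ i₀ → ‖h i‖ = 1 ∧ (∀ z ∈ T i₀, h i z ≤ c i) ∧ (∀ z ∈ T i, c i ≤ h i z)) ∧
    ∀ p ∈ T i₀, (∀ ε > 0, {i | (T i ∩ ball p ε).Nonempty}.Infinite) → ∀ ε > 0,
      ∃ E : Set ι, E.Infinite ∧ (∀ i ∈ E, i ≠ i₀ ∧ (T i ∩ ball p ε).Nonempty) ∧
        ∀ i ∈ E, ∀ j ∈ E, i ≠ j → lam ≤ ‖h i - h j‖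

lemma step {T : ι → Set X} (hT : IsTiling T)
    (hrefl : Function.Surjective (NormedSpace.inclusionInDoubleDual ℝ X))
    (hinf : ¬ FiniteDimensional ℝ X)
    (H : ι → ι → StrongDual ℝ X) (d : ι → ι → ℝ)
    (hH : ∀ i j, i ≠ j → ‖H i j‖ = 1 ∧ (∀ z ∈ T i, H i j z ≤ d i j) ∧
      (∀ z ∈ T j, d i j ≤ H i j z) ∧ (∀ z ∈ interior (T i), H i j z < d i j))
    {i₀ : ι} {R : ℝ} (hR : ∀ z ∈ T i₀, ‖z‖ ≤ R) (hsn : SeparatedNormals T i₀)
    {y : X} (hy : y ∈ T i₀) (hns : LocFin T y) :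
    ∃ p ∈ T i₀, LocFin T p ∧ tl T y ⊂ tl T p := by
  classical
  obtain ⟨f, c, lam, hlam, hfc, hsep⟩ := hsn
  by_contra hcon0
  have hi₀ : i₀ ∈ tl T y := hy
  have hcon : ∀ p, tl T y ⊆ tl T p → LocFin T p → ¬ (tl T y ⊂ tl T p) := by
    intro p hp hnp hss
    exact hcon0 ⟨p, hp hi₀, hnp, hss⟩
  clear hcon0
  set A := tl T y with hA
  have hAfin : A.Finite := tl_fin hns
  have hLfin : (LA H A).Finite := LA_fin H hAfin
  obtain ⟨s, hs, hsC⟩ := good hT H d hH hns
  have hR0 : 0 ≤ R := (norm_nonneg y).trans (hR y hy)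
  set C₁ : ℝ := 8 * (2 + 2 * R) / lam with hC₁
  have hC₁pos : 0 < C₁ := by positivity
  set c₀ : ℝ := s * lam / (16 * C₁) with hc₀
  have hc₀pos : 0 < c₀ := by positivity
  have happ : ∀ (j : ι) (v : X) (b : ℝ), j ≠ i₀ → ‖v‖ ≤ b → f j v ≤ b := by
    intro j v b hj h2
    calc f j v ≤ ‖f j v‖ := le_abs_self _
      _ ≤ ‖f j‖ * ‖v‖ := (f j).le_opNorm v
      _ = ‖v‖ := by rw [(hfc j hj).1, one_mul]
      _ ≤ b := h2
  -- near-active separated sets
  have hE : ∀ p ∈ T i₀, ¬ LocFin T p → ∀ ε > 0, ∃ E : Set ι, E.Infinite ∧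
      (∀ i ∈ E, i ≠ i₀ ∧ c i - ε < f i p) ∧ ∀ i ∈ E, ∀ j ∈ E, i ≠ j → lam ≤ ‖f i - f j‖ := by
    intro p hp hpn ε hε
    obtain ⟨E, hE1, hE2, hE3⟩ := hsep p hp (fun ε hε hfin => hpn ⟨ε, hε, hfin⟩) ε hε
    refine ⟨E, hE1, fun i hi => ⟨(hE2 i hi).1, ?_⟩, hE3⟩
    obtain ⟨hne, q, hq1, hq2⟩ := hE2 i hi
    have h1 := (hfc i hne).2.2 q hq1
    have h2 : f i (q - p) ≤ ‖q - p‖ := happ i _ _ hne le_rfl
    rw [map_sub] at h2
    rw [mem_ball, dist_eq_norm] at hq2
    linarith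
  -- a near-active index with a witness
  have hwit : ∀ p ∈ T i₀, ¬ LocFin T p → ∀ ε > 0, ∃ j, j ≠ i₀ ∧ c j - ε < f j p ∧
      ∃ z, (∀ g ∈ LA H A, g z = 0) ∧ ‖z‖ ≤ 1 ∧ lam / 8 ≤ f j z := by
    intro p hp hpn ε hε
    obtain ⟨E, hE1, hE2, hE3⟩ := hE p hp hpn ε hε
    obtain ⟨j, hj, z, hz, hz1, hzj⟩ := pigeon f hlam (LA H A) hLfin E hE1 hE3 (B := 1)
      (fun j hj => (hfc j (hE2 j hj).1).1.le)
    exact ⟨j, (hE2 j hj).1, (hE2 j hj).2, z, hz, hz1.le, hzj⟩
  let Good : St ι X → Prop := fun S => A ⊆ tl T S.p ∧ ¬ LocFin T S.p ∧ 0 < S.ε ∧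
    S.G.Finite ∧ ∀ j, j ≠ i₀ → c j - S.ε < f j S.p →
      (∃ z, (∀ g ∈ LA H A, g z = 0) ∧ ‖z‖ ≤ 1 ∧ lam / 8 ≤ f j z) → ∀ v ∈ S.Us, c₀ ≤ f j v
  let Rel : St ι X → St ι X → Prop := fun S S' => S'.G = insert (f S'.j) S.G ∧
    S'.Us = insert S'.u S.Us ∧ ‖S'.u‖ = 1 ∧ ‖f S'.j‖ ≤ 1 ∧ (∀ g ∈ S.G, g S'.u = 0) ∧
    ∀ v ∈ S'.Us, c₀ ≤ f S'.j v
  have hstart : ∃ S, Good S := by
    obtain ⟨u, hu1, huA⟩ := exists_unit (LA H A) hLfin hinf
    obtain ⟨τ, hτ0, hτA, hτn⟩ := exit hT H d hH hR hi₀ hcon (le_refl A) hu1 huA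
    refine ⟨⟨y + τ • u, 1, ∅, ∅, 0, i₀⟩, hτA, hτn, one_pos, Set.finite_empty, ?_⟩
    intro j _ _ _ v hv
    exact absurd hv (Set.notMem_empty v)
  have hnext : ∀ S, Good S → ∃ S', Good S' ∧ Rel S S' := by
    rintro ⟨p, ε, G, Us, u₀, j₀⟩ ⟨hpA, hpn, hε, hGf, hcond⟩
    simp only at hpA hpn hε hGf hcond
    have hpT : p ∈ T i₀ := hpA hi₀
    set K' : ℝ := 2 * R + C₁ with hK'
    have hK'0 : 0 ≤ K' := by positivity
    set t : ℝ := min 1 (ε / (2 * K' + 1)) with ht
    have ht0 : 0 < t := by positivity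
    have ht1 : t ≤ 1 := min_le_left _ _
    have htK : K' * t ≤ ε / 2 := by
      have h1 : t ≤ ε / (2 * K' + 1) := min_le_right _ _
      have h2 : t * (2 * K' + 1) ≤ ε := by
        rwa [le_div_iff₀ (by positivity)] at h1
      nlinarith
    obtain ⟨E, hE1, hE2, hE3⟩ := hE p hpT hpn t ht0
    obtain ⟨j₁, hj₁, u, hu, hu1, huj⟩ := pigeon f hlam (LA H A ∪ G) (hLfin.union hGf) E hE1 hE3
      (B := 1) (fun j hj => (hfc j (hE2 j hj).1).1.le)
    obtain ⟨hj₁ne, hj₁near⟩ := hE2 j₁ hj₁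
    have huA : ∀ g ∈ LA H A, g u = 0 := fun i hi => hu i (Or.inl hi)
    have huG : ∀ g ∈ G, g u = 0 := fun i hi => hu i (Or.inr hi)
    set b : X := p + t • (y - p) with hb
    have hfb : ∀ j, f j b = (1 - t) * f j p + t * f j y := by
      intro j
      rw [hb, map_add, map_smul, map_sub, smul_eq_mul]; ring
    have hbA : A ⊆ tl T b := by
      intro j hj
      have h1 : p ∈ T j := hpA hj
      have h2 : y ∈ T j := hj
      have h3 : b = (1 - t) • p + t • y := by rw [hb]; module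
      show b ∈ T j
      rw [h3]
      exact hT.convex j h1 h2 (by linarith) ht0.le (by ring)
    obtain ⟨τ, hτ0, hτA, hτn⟩ := exit hT H d hH hR hi₀ hcon hbA hu1 huA
    have hτT : b + τ • u ∈ T i₀ := hτA hi₀
    have hpy : ‖p - y‖ ≤ 2 * R := by
      have := (norm_sub_le p y).trans (add_le_add (hR p hpT) (hR y hy))
      linarith
    have hle : ∀ j, j ≠ i₀ → ∀ z ∈ T i₀, f j z ≤ c j := fun j hj z hz => (hfc j hj).2.1 z hz
    -- upper bound for the exit time
    have hτle : τ ≤ C₁ * t := by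
      have h1 := hle j₁ hj₁ne _ hτT
      rw [map_add, map_smul, hfb, smul_eq_mul] at h1
      have h2 : c j₁ - t < f j₁ p := hj₁near
      have h4 : f j₁ (p - y) ≤ 2 * R := happ j₁ _ _ hj₁ne hpy
      rw [map_sub] at h4
      have h6 : c j₁ - f j₁ y ≤ 1 + 2 * R := by linarith
      have h7 : τ * f j₁ u ≤ t * (2 + 2 * R) := by
        have h8 : τ * f j₁ u ≤ (1 - t) * (c j₁ - f j₁ p) + t * (c j₁ - f j₁ y) := by
          linarith
        have h9 : (1 - t) * (c j₁ - f j₁ p) ≤ t := by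
          have := hle j₁ hj₁ne p hpT
          nlinarith
        nlinarith
      have h10 : τ * (lam / 8) ≤ t * (2 + 2 * R) :=
        (mul_le_mul_of_nonneg_left huj hτ0).trans h7
      rw [hC₁]
      rw [div_mul_eq_mul_div, le_div_iff₀ hlam]
      linarith
    set p' : X := b + τ • u with hp'
    set ε' : ℝ := min (ε / 2) (t * s * lam / 16) with hε'
    have hε'0 : 0 < ε' := by positivity
    have hε'2 : ε' ≤ ε / 2 := min_le_left _ _
    have hε'3 : ε' ≤ t * s * lam / 16 := min_le_right _ _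
    have hcond' : ∀ j, j ≠ i₀ → c j - ε' < f j p' →
        (∃ z, (∀ g ∈ LA H A, g z = 0) ∧ ‖z‖ ≤ 1 ∧ lam / 8 ≤ f j z) →
        ∀ v ∈ insert u Us, c₀ ≤ f j v := by
      intro j hjne hj hz
      have hdist : ‖p' - p‖ ≤ K' * t := by
        have h1 : p' - p = t • (y - p) + τ • u := by rw [hp', hb]; abel
        rw [h1]
        have h2 := norm_add_le (t • (y - p)) (τ • u)
        rw [norm_smul, norm_smul, hu1, mul_one, Real.norm_of_nonneg ht0.le,
          Real.norm_of_nonneg hτ0] at h2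
        have h3 : ‖y - p‖ ≤ 2 * R := by rw [norm_sub_rev]; exact hpy
        have h4 : t * ‖y - p‖ ≤ t * (2 * R) := mul_le_mul_of_nonneg_left h3 ht0.le
        rw [hK']
        linarith
      have hjp : c j - ε < f j p := by
        have h1 : f j (p' - p) ≤ K' * t := happ j (p' - p) _ hjne hdist
        rw [map_sub] at h1
        linarith
      rintro v (rfl | hv)
      · obtain ⟨z, hzM, hz1, hzj⟩ := hz
        have h3 : y + s • z ∈ T i₀ := by
          refine hsC (s • z) ?_ ?_ i₀ hi₀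
          · rw [norm_smul, Real.norm_of_nonneg hs.le]
            nlinarith
          · intro k hk l hl hkl
            rw [map_smul, hzM _ ⟨k, hk, l, hl, hkl, rfl⟩, smul_zero]
        have h4 := hle j hjne _ h3
        rw [map_add, map_smul, smul_eq_mul] at h4
        have h5 : s * (lam / 8) ≤ c j - f j y := by nlinarith
        have h6 : c j - ε' < (1 - t) * f j p + t * f j y + τ * f j v := by
          have := hj
          rw [hp', map_add, map_smul, hfb, smul_eq_mul] at this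
          exact this
        have h7 : (1 - t) * f j p ≤ (1 - t) * c j :=
          mul_le_mul_of_nonneg_left (hle j hjne p hpT) (by linarith)
        have h8 : t * (s * (lam / 8)) ≤ t * (c j - f j y) :=
          mul_le_mul_of_nonneg_left h5 ht0.le
        have h9 : t * s * lam / 16 ≤ τ * f j v := by
          have : t * (s * (lam / 8)) = t * s * lam / 8 := by ring
          linarith
        have h10 : 0 < f j v := by
          by_contra hneg
          push Not at hneg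
          have : τ * f j v ≤ 0 := mul_nonpos_of_nonneg_of_nonpos hτ0 hneg
          have : 0 < t * s * lam / 16 := by positivity
          linarith
        have h11 : t * s * lam / 16 ≤ C₁ * t * f j v :=
          h9.trans (mul_le_mul_of_nonneg_right hτle h10.le)
        rw [hc₀, div_le_iff₀ (by positivity)]
        have h12 : t * (s * lam / 16) ≤ t * (C₁ * f j v) := by
          have e1 : t * s * lam / 16 = t * (s * lam / 16) := by ring
          have e2 : C₁ * t * f j v = t * (C₁ * f j v) := by ring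
          rw [← e1, ← e2]; exact h11
        have h13 := le_of_mul_le_mul_left h12 ht0
        linarith
      · exact hcond j hjne hjp hz v hv
    obtain ⟨j, hjne, hjnear, hjz⟩ := hwit p' hτT hτn ε' hε'0
    refine ⟨⟨p', ε', insert (f j) G, insert u Us, u, j⟩,
      ⟨hτA, hτn, hε'0, hGf.insert (f j), hcond'⟩, rfl, rfl, hu1, (hfc j hjne).1.le, huG, ?_⟩
    exact hcond' j hjne hjnear hjz
  choose! next hnextG hnextR using hnext
  obtain ⟨S0, hS0⟩ := hstart
  let S : ℕ → St ι X := fun n => Nat.rec S0 (fun _ T => next T) n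
  have hSG : ∀ n, Good (S n) := by
    intro n
    induction n with
    | zero => exact hS0
    | succ n ih => exact hnextG _ ih
  have hSR : ∀ n, Rel (S n) (S (n + 1)) := fun n => hnextR _ (hSG n)
  have hUs : ∀ i k, i ≤ k → (S (i + 1)).u ∈ (S (k + 1)).Us := by
    intro i k hik
    induction k, hik using Nat.le_induction with
    | base => rw [(hSR i).2.1]; exact mem_insert _ _
    | succ k hk ih => rw [(hSR (k + 1)).2.1]; exact mem_insert_of_mem _ ih
  have hGs : ∀ i k, i ≤ k → f (S (i + 1)).j ∈ (S (k + 1)).G := by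
    intro i k hik
    induction k, hik using Nat.le_induction with
    | base => rw [(hSR i).1]; exact mem_insert _ _
    | succ k hk ih => rw [(hSR (k + 1)).1]; exact mem_insert_of_mem _ ih
  refine james hrefl (fun k => (S (k + 1)).u) (fun k => f (S (k + 1)).j) 1 c₀ hc₀pos
    (fun k => (hSR k).2.2.1.le) (fun k => (hSR k).2.2.2.1) ?_ ?_
  · intro i k hik
    exact (hSR k).2.2.2.2.2 _ (hUs i k hik)
  · intro i k hik
    obtain ⟨k', rfl⟩ := Nat.exists_eq_succ_of_ne_zero (by omega : k ≠ 0)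
    exact (hSR (k' + 1)).2.2.2.2.1 _ (hGs i k' (by omega))

theorem main {T : ι → Set X} (hT : IsTiling T)
    (hrefl : Function.Surjective (NormedSpace.inclusionInDoubleDual ℝ X))
    (hinf : ¬ FiniteDimensional ℝ X) {i₀ : ι} (hb : Bornology.IsBounded (T i₀))
    (hsn : SeparatedNormals T i₀) : ∃ z ∈ T i₀, {j | z ∈ T j}.Infinite := by
  classical
  obtain ⟨R, hR⟩ := hb.exists_norm_le
  have hHex : ∀ i j, ∃ (h : StrongDual ℝ X) (c : ℝ), i ≠ j → ‖h‖ = 1 ∧ (∀ z ∈ T i, h z ≤ c) ∧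
      (∀ z ∈ T j, c ≤ h z) ∧ (∀ z ∈ interior (T i), h z < c) := by
    intro i j
    by_cases hij : i = j
    · exact ⟨0, 0, fun h => absurd hij h⟩
    · obtain ⟨h, c, hh⟩ := sep_pair hT i j hij
      exact ⟨h, c, fun _ => hh⟩
  choose H d hH using hHex
  -- an interior point of the tile
  obtain ⟨y₀, hy₀⟩ := hT.nonempty i₀
  have hns₀ : LocFin T y₀ := by
    obtain ⟨r, hr, hball⟩ := Metric.isOpen_iff.1 isOpen_interior y₀ hy₀
    refine ⟨r, hr, (Set.finite_singleton i₀).subset fun j hj => ?_⟩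
    by_contra hne
    have hne' : j ≠ i₀ := hne
    obtain ⟨q, hq1, hq2⟩ := hj
    have hq3 : q ∈ interior (T i₀) := hball hq2
    have hq4 : q ∈ closure (interior (T j)) := sub_closure hT j hq1
    obtain ⟨w, hw1, hw2⟩ := mem_closure_iff.1 hq4 _ isOpen_interior hq3
    exact Set.disjoint_left.1 (hT.disjoint j i₀ hne') hw2 hw1
  have hst : ∀ y : {y // y ∈ T i₀ ∧ LocFin T y}, ∃ p : {y // y ∈ T i₀ ∧ LocFin T y},
      tl T y.1 ⊂ tl T p.1 := by
    intro y
    obtain ⟨p, hp1, hp2, hp3⟩ := step hT hrefl hinf H d hH hR hsn y.2.1 y.2.2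
    exact ⟨⟨p, hp1, hp2⟩, hp3⟩
  choose next hnextact using hst
  obtain ⟨s, hs⟩ : ∃ s : ℕ → {y // y ∈ T i₀ ∧ LocFin T y},
      ∀ n, tl T (s n).1 ⊂ tl T (s (n + 1)).1 := by
    refine ⟨fun n => Nat.rec (motive := fun _ => {y // y ∈ T i₀ ∧ LocFin T y})
      ⟨y₀, interior_subset hy₀, hns₀⟩ (fun _ y => next y) n, fun n => ?_⟩
    exact hnextact _
  obtain ⟨z, hz⟩ := wlim hrefl (fun k => (s k).1) R (fun k => hR _ (s k).2.1) (hyperfilter ℕ)
  have hmono : Monotone (fun n => tl T (s n).1) := monotone_nat_of_le_succ fun n => (hs n).1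
  have hsub : ∀ n, tl T (s n).1 ⊆ tl T z := by
    intro n j hj
    by_contra hzj
    obtain ⟨g, u, hg1, hg2⟩ :=
      geometric_hahn_banach_closed_point (hT.convex j) (hT.closed j) hzj
    have hev : ∀ᶠ k in ((hyperfilter ℕ : Ultrafilter ℕ) : Filter ℕ), n ≤ k :=
      (eventually_ge_atTop n).filter_mono Nat.hyperfilter_le_atTop
    have h1 : g z ≤ u := le_of_tendsto (hz g) (hev.mono fun k hk => (hg1 _ (hmono hk hj)).le)
    linarith
  have hcard : ∀ n, n ≤ (tl T (s n).1).ncard := by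
    intro n
    induction n with
    | zero => exact Nat.zero_le _
    | succ n ih =>
      have := Set.ncard_lt_ncard (hs n) (tl_fin (s (n + 1)).2.2)
      omega
  refine ⟨z, hsub 0 (s 0).2.1, fun hfin => ?_⟩
  have h1 := hcard ((tl T z).ncard + 1)
  have h2 := Set.ncard_le_ncard (hsub ((tl T z).ncard + 1)) hfin
  omega


lemma norm_le_of_unit (g : StrongDual ℝ X) (M : ℝ) (h : ∀ v, ‖v‖ ≤ 1 → g v ≤ M) : ‖g‖ ≤ M := by
  have hM : 0 ≤ M := by
    have := h 0 (by simp)
    simpa using this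
  refine ContinuousLinearMap.opNorm_le_bound _ hM fun x => ?_
  by_cases hx : x = 0
  · simp [hx]
  · have hpos : 0 < ‖x‖ := norm_pos_iff.2 hx
    have hn : ‖(‖x‖)⁻¹ • x‖ ≤ 1 := by
      rw [norm_smul, norm_inv, norm_norm, inv_mul_cancel₀ hpos.ne']
    have h1 := h _ hn
    have h2 := h (-((‖x‖)⁻¹ • x)) (by rw [norm_neg]; exact hn)
    rw [map_neg] at h2
    rw [map_smul, smul_eq_mul] at h1 h2
    have e : g x = ‖x‖ * (‖x‖⁻¹ * g x) := by field_simp
    rw [Real.norm_eq_abs, abs_le]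
    constructor
    · rw [e]; nlinarith
    · rw [e]; nlinarith

/-- The norm of `X` is uniformly non-square (James). -/
def UniformlyNonSquare (X : Type*) [NormedAddCommGroup X] : Prop :=
  ∃ δ : ℝ, 0 < δ ∧ ∀ x y : X, ‖x‖ ≤ 1 → ‖y‖ ≤ 1 → ‖x + y‖ ≤ 2 - δ ∨ ‖x - y‖ ≤ 2 - δ

lemma aux {δ r₀ ε ri rj ci cj : ℝ} (hδ : 0 < δ) (hδ1 : δ ≤ 1)
    (hns : ∀ x y : X, ‖x‖ ≤ 1 → ‖y‖ ≤ 1 → ‖x + y‖ ≤ 2 - δ ∨ ‖x - y‖ ≤ 2 - δ)
    (hr₀ : 0 < r₀) (hε : 0 < ε) (hε1 : ε ≤ r₀ * (δ / 8)) (hrj : r₀ ≤ rj) (hri : rj ≤ ri)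
    {hi hj : StrongDual ℝ X} (hhi : ‖hi‖ = 1) {p xi xj : X}
    (h1 : hi p ≤ ci) (h2 : ci + ri ≤ hi xi) (h3 : hj p ≤ cj) (h4 : cj + rj ≤ hj xj)
    (h5 : ‖xi - p‖ ≤ ri + ε) (h6 : ‖xj - p‖ ≤ rj + ε) (h7 : ‖hi - hj‖ < δ / 4) :
    ‖xi - xj‖ < ri + rj := by
  have hrjp : 0 < rj := lt_of_lt_of_le hr₀ hrj
  have hrip : 0 < ri := lt_of_lt_of_le hrjp hri
  set a : X := (ri + ε)⁻¹ • (xi - p) with ha
  set b : X := (rj + ε)⁻¹ • (xj - p) with hb
  have ha1 : ‖a‖ ≤ 1 := by
    rw [ha, norm_smul, norm_inv, Real.norm_of_nonneg (by positivity), inv_mul_le_iff₀ (by positivity)]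
    linarith
  have hb1 : ‖b‖ ≤ 1 := by
    rw [hb, norm_smul, norm_inv, Real.norm_of_nonneg (by positivity), inv_mul_le_iff₀ (by positivity)]
    linarith
  have hia : 1 - δ / 8 ≤ hi a := by
    rw [ha, map_smul, smul_eq_mul, inv_mul_eq_div, le_div_iff₀ (by positivity), map_sub]
    nlinarith
  have hjb : 1 - δ / 8 ≤ hj b := by
    rw [hb, map_smul, smul_eq_mul, inv_mul_eq_div, le_div_iff₀ (by positivity), map_sub]
    nlinarith
  have hib : 1 - δ / 8 - δ / 4 ≤ hi b := by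
    have e1 : (hj - hi) b ≤ ‖hj - hi‖ * ‖b‖ := (le_abs_self _).trans ((hj - hi).le_opNorm b)
    have e2 : ‖hj - hi‖ * ‖b‖ ≤ δ / 4 * 1 := by
      rw [norm_sub_rev]
      exact mul_le_mul h7.le hb1 (norm_nonneg _) (by positivity)
    have e3 : (hj - hi) b = hj b - hi b := rfl
    linarith
  have hab : 2 - δ < ‖a + b‖ := by
    have e1 : hi (a + b) ≤ ‖hi‖ * ‖a + b‖ := (le_abs_self _).trans (hi.le_opNorm _)
    rw [hhi, one_mul, map_add] at e1
    linarith
  have hab2 : ‖a - b‖ ≤ 2 - δ := by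
    rcases hns a b ha1 hb1 with h | h
    · linarith
    · exact h
  have hea : (ri + ε) • a = xi - p := by
    rw [ha, smul_smul, mul_inv_cancel₀ (by positivity), one_smul]
  have heb : (rj + ε) • b = xj - p := by
    rw [hb, smul_smul, mul_inv_cancel₀ (by positivity), one_smul]
  have hdec : xi - xj = (ri - rj) • a + (rj + ε) • (a - b) := by
    have : xi - xj = (ri + ε) • a - (rj + ε) • b := by rw [hea, heb]; abel
    rw [this]; module
  rw [hdec]
  have e1 := norm_add_le ((ri - rj) • a) ((rj + ε) • (a - b))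
  rw [norm_smul (ri - rj) a, norm_smul (rj + ε) (a - b),
    Real.norm_of_nonneg (by linarith : 0 ≤ ri - rj),
    Real.norm_of_nonneg (by positivity : 0 ≤ rj + ε)] at e1
  have e2 : (ri - rj) * ‖a‖ ≤ (ri - rj) * 1 := mul_le_mul_of_nonneg_left ha1 (by linarith)
  have e3 : (rj + ε) * ‖a - b‖ ≤ (rj + ε) * (2 - δ) :=
    mul_le_mul_of_nonneg_left hab2 (by positivity)
  have e4 : r₀ * δ ≤ rj * δ := mul_le_mul_of_nonneg_right hrj hδ.le
  have e5 : 0 < r₀ * δ := by positivity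
  have e6 : 0 < ε * δ := by positivity
  nlinarith

theorem balls_sepNormals {x : ι → X} {r : ι → ℝ} {r₀ : ℝ} (hr₀ : 0 < r₀) (hr : ∀ i, r₀ ≤ r i)
    (hT : IsTiling (fun i => closedBall (x i) (r i))) (hX : UniformlyNonSquare X) (i₀ : ι) :
    SeparatedNormals (fun i => closedBall (x i) (r i)) i₀ := by
  classical
  obtain ⟨δ₀, hδ₀, hns₀⟩ := hX
  set δ : ℝ := min δ₀ 1 with hδdef
  have hδ : 0 < δ := by positivity
  have hδ1 : δ ≤ 1 := min_le_right _ _
  have hns : ∀ x y : X, ‖x‖ ≤ 1 → ‖y‖ ≤ 1 → ‖x + y‖ ≤ 2 - δ ∨ ‖x - y‖ ≤ 2 - δ := by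
    intro x y hx hy
    have : δ ≤ δ₀ := min_le_left _ _
    rcases hns₀ x y hx hy with h | h
    · left; linarith
    · right; linarith
  have hrpos : ∀ i, 0 < r i := fun i => lt_of_lt_of_le hr₀ (hr i)
  have hHex : ∀ i, ∃ (h : StrongDual ℝ X) (c : ℝ), i ≠ i₀ → ‖h‖ = 1 ∧
      (∀ z ∈ closedBall (x i₀) (r i₀), h z ≤ c) ∧ (∀ z ∈ closedBall (x i) (r i), c ≤ h z) := by
    intro i
    by_cases hij : i = i₀
    · exact ⟨0, 0, fun h => absurd hij h⟩
    · obtain ⟨h, c, h1, h2, h3, _⟩ := sep_pair hT i₀ i (fun h => hij h.symm)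
      exact ⟨h, c, fun _ => ⟨h1, h2, h3⟩⟩
  choose h c hhc using hHex
  have hxi : ∀ i, i ≠ i₀ → c i + r i ≤ h i (x i) := by
    intro i hi
    have h1 : ‖h i‖ ≤ (h i (x i) - c i) / r i := by
      apply norm_le_of_unit
      intro v hv
      rw [le_div_iff₀ (hrpos i)]
      have h2 : x i - r i • v ∈ closedBall (x i) (r i) := by
        rw [mem_closedBall, dist_eq_norm, sub_sub_cancel_left, norm_neg, norm_smul,
          Real.norm_of_nonneg (hrpos i).le]
        have := hrpos i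
        nlinarith
      have h3 := (hhc i hi).2.2 _ h2
      rw [map_sub, map_smul, smul_eq_mul] at h3
      linarith
    rw [(hhc i hi).1, le_div_iff₀ (hrpos i)] at h1
    linarith
  refine ⟨h, c, δ / 4, by positivity, hhc, ?_⟩
  intro p hp hinfp ε hε
  set ε' : ℝ := min ε (r₀ * (δ / 8)) with hε'
  have hε'0 : 0 < ε' := by positivity
  have hε'1 : ε' ≤ r₀ * (δ / 8) := min_le_right _ _
  refine ⟨{i | ((closedBall (x i) (r i)) ∩ ball p ε').Nonempty} \ {i₀},
    (hinfp ε' hε'0).sdiff (Set.finite_singleton i₀), ?_, ?_⟩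
  · rintro i ⟨⟨q, hq1, hq2⟩, hne⟩
    exact ⟨hne, q, hq1, ball_subset_ball (min_le_left _ _) hq2⟩
  · -- the distance estimate
    have hclose : ∀ i, ((closedBall (x i) (r i)) ∩ ball p ε').Nonempty → ‖x i - p‖ ≤ r i + ε' := by
      rintro i ⟨q, hq1, hq2⟩
      rw [mem_closedBall, dist_eq_norm] at hq1
      rw [mem_ball, dist_eq_norm] at hq2
      have e : x i - p = (q - p) - (q - x i) := by abel
      rw [e]
      have := norm_sub_le (q - p) (q - x i)
      linarith
    rintro i ⟨hi, hine⟩ j ⟨hj, hjne⟩ hij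
    have hine' : i ≠ i₀ := hine
    have hjne' : j ≠ i₀ := hjne
    by_contra hlt
    push Not at hlt
    have hdisj : r i + r j ≤ ‖x i - x j‖ := by
      have h1 := hT.disjoint i j hij
      simp only [interior_closedBall _ (hrpos i).ne', interior_closedBall _ (hrpos j).ne'] at h1
      rw [disjoint_ball_ball_iff (hrpos i) (hrpos j), dist_eq_norm] at h1
      exact h1
    rcases le_total (r j) (r i) with hle | hle
    · have := aux hδ hδ1 hns hr₀ hε'0 hε'1 (hr j) hle (hhc i hine').1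
        ((hhc i hine').2.1 p hp) (hxi i hine') ((hhc j hjne').2.1 p hp) (hxi j hjne')
        (hclose i hi) (hclose j hj) hlt
      linarith
    · have := aux hδ hδ1 hns hr₀ hε'0 hε'1 (hr i) hle (hhc j hjne').1
        ((hhc j hjne').2.1 p hp) (hxi j hjne') ((hhc i hine').2.1 p hp) (hxi i hine')
        (hclose j hj) (hclose i hi) (by rw [norm_sub_rev]; exact hlt)
      rw [norm_sub_rev] at this
      linarith

end core

/-- Statement (A): a bounded tile with separated normals of a tiling of a reflexive space contains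
a point which lies in infinitely many tiles. -/
def TileTheorem.{u, v} : Prop :=
  ∀ (ι : Type u) (X : Type v) [NormedAddCommGroup X] [NormedSpace ℝ X],
    Function.Surjective (NormedSpace.inclusionInDoubleDual ℝ X) → ¬ FiniteDimensional ℝ X →
    ∀ T : ι → Set X, IsTiling T → ∀ i₀, Bornology.IsBounded (T i₀) → SeparatedNormals T i₀ →
    ∃ z ∈ T i₀, {j | z ∈ T j}.Infinite

/-- Statement (B): in a uniformly non-square reflexive space each ball of a tiling by balls with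
radii bounded below contains a point which lies in infinitely many of the balls. -/
def BallTheorem.{u, v} : Prop :=
  ∀ (ι : Type u) (X : Type v) [NormedAddCommGroup X] [NormedSpace ℝ X],
    Function.Surjective (NormedSpace.inclusionInDoubleDual ℝ X) → ¬ FiniteDimensional ℝ X →
    UniformlyNonSquare X → ∀ (x : ι → X) (r : ι → ℝ), (∃ r₀ : ℝ, 0 < r₀ ∧ ∀ i, r₀ ≤ r i) →
    IsTiling (fun i => closedBall (x i) (r i)) →
    ∀ i, ∃ z ∈ closedBall (x i) (r i), {j | z ∈ closedBall (x j) (r j)}.Infinite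

/-- **Main theorem.** -/
theorem result.{u, v} : TileTheorem.{u, v} ∧ BallTheorem.{u, v} := by
  refine ⟨?_, ?_⟩
  · intro ι X _ _ hrefl hinf T hT i₀ hb hsn
    exact main hT hrefl hinf hb hsn
  · intro ι X _ _ hrefl hinf hX x r hr hT i
    obtain ⟨r₀, hr₀, hr⟩ := hr
    exact main hT hrefl hinf isBounded_closedBall (balls_sepNormals hr₀ hr hT hX i)

end Pool.Agent.Results.MP_73700b_an.BallTilings
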