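import Mathlib

/-!
# Coherent (in particular Voronoi) tilings of reflexive spaces are never point-finite

Let `X` be an infinite-dimensional reflexive space and `a j - α j` a family of affine functions with
separated gradients which is bounded above on bounded sets.  Then every bounded cell
`{z | ∀ j, a j z - α j ≤ a i z - α i}` with nonempty interior contains a point which lies in
infinitely many cells.  In particular a tiling of `ℓ₂(Γ)` by balls of an equivalent norm which is
the Voronoi tiling (or a power diagram) of a separated set is not point-finite.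

Idea.  Call a point singular if for every `ε > 0` infinitely many of the inequalities are within `ε`
of equality.  If `y` is nonsingular with the finite active set `A`, look at the face `F` of the cell
on which the functions of `A` are equal.  If all relative boundary points of `F` were singular, one
could choose unit vectors `u k` and near-active functionals `f k` with `f k (u i) ≥ c₀` for `i ≤ k`
and `f i (u k) = 0` for `i < k`, which is impossible in a reflexive space.  So there is a nonsingular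
point with a larger active set; iterate and pass to a weak limit.
-/

open Metric Set Filter Topology

namespace Pool.Agent.Results.MP_73700b_an.CoherentTilings

section core

variable {ι X : Type*} [NormedAddCommGroup X] [NormedSpace ℝ X]

lemma pigeon (f : ι → StrongDual ℝ X) {lam B : ℝ} (hlam : 0 < lam)
    (hsep : ∀ i j, i ≠ j → lam ≤ ‖f i - f j‖)
    (T : Set ι) (hT : T.Finite)
    (E : Set ι) (hE : E.Infinite) (hB : ∀ j ∈ E, ‖f j‖ ≤ B) :
    ∃ j ∈ E, ∃ u : X, (∀ i ∈ T, f i u = 0) ∧ ‖u‖ = 1 ∧ lam / 8 ≤ f j u := by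
  classical
  by_contra hcon
  push Not at hcon
  have : Finite T := hT
  have _ := Fintype.ofFinite T
  set W : Submodule ℝ X := ⨅ i : T, LinearMap.ker (f i : X →ₗ[ℝ] ℝ) with hW
  have hWmem : ∀ w ∈ W, ∀ i ∈ T, f i w = 0 := by
    intro w hw i hi
    have := (Submodule.mem_iInf _).1 hw ⟨i, hi⟩
    simpa using this
  have habs : ∀ j ∈ E, ∀ w ∈ W, ‖f j w‖ ≤ lam / 8 * ‖w‖ := by
    intro j hj w hw
    have aux : ∀ v ∈ W, f j v ≤ lam / 8 * ‖v‖ := by
      intro v hv
      by_cases hv0 : v = 0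
      · simp [hv0]
      · have hpos : 0 < ‖v‖ := norm_pos_iff.2 hv0
        have h1 := hcon j hj ((‖v‖)⁻¹ • v) (fun i hi => by simp [hWmem v hv i hi])
          (by rw [norm_smul, norm_inv, norm_norm, inv_mul_cancel₀ hpos.ne'])
        rw [map_smul, smul_eq_mul, inv_mul_eq_div, div_lt_iff₀ hpos] at h1
        exact h1.le
    have h1 := aux w hw
    have h2 := aux (-w) (W.neg_mem hw)
    rw [map_neg, norm_neg] at h2
    rw [Real.norm_eq_abs, abs_le]
    constructor <;> linarith
  have hext : ∀ j ∈ E, ∃ g : StrongDual ℝ X, ‖g‖ ≤ lam / 8 ∧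
      f j - g ∈ Submodule.span ℝ (f '' T) := by
    intro j hj
    obtain ⟨g, hg1, hg2⟩ := exists_extension_norm_eq W ((f j).comp W.subtypeL)
    refine ⟨g, ?_, ?_⟩
    · rw [hg2]
      refine ContinuousLinearMap.opNorm_le_bound _ (by positivity) fun w => ?_
      exact habs j hj w w.2
    · have hker : (⨅ i : T, LinearMap.ker (f i : X →ₗ[ℝ] ℝ)) ≤
          LinearMap.ker ((f j - g : StrongDual ℝ X) : X →ₗ[ℝ] ℝ) := by
        intro w hw
        have h := hg1 ⟨w, hw⟩
        have h' : g w = f j w := h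
        rw [LinearMap.mem_ker]
        show f j w - g w = 0
        rw [h', sub_self]
      have h1 := mem_span_of_iInf_ker_le_ker hker
      rw [Submodule.mem_span_range_iff_exists_fun] at h1
      obtain ⟨c, hc⟩ := h1
      have : f j - g = ∑ i : T, c i • f i := by
        ext x
        have := LinearMap.congr_fun hc x
        simpa using this.symm
      rw [this]
      exact Submodule.sum_mem _ fun i _ =>
        Submodule.smul_mem _ _ (Submodule.subset_span ⟨i, i.2, rfl⟩)
  choose! g hg1 hg2 using hext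
  set G := Submodule.span ℝ (f '' T) with hG
  have : FiniteDimensional ℝ G := FiniteDimensional.span_of_finite ℝ (hT.image f)
  have : ProperSpace G := FiniteDimensional.proper ℝ G
  have hcpt : IsCompact (closedBall (0 : G) (B + lam / 8)) := isCompact_closedBall _ _
  obtain ⟨t, htf, ht⟩ := Metric.totallyBounded_iff.1 hcpt.totallyBounded (lam / 8) (by positivity)
  have hch : ∀ j ∈ E, ∃ x ∈ t, ‖f j - g j - (x : StrongDual ℝ X)‖ < lam / 8 := by
    intro j hj
    have hmem : (⟨f j - g j, hg2 j hj⟩ : G) ∈ closedBall (0 : G) (B + lam / 8) := by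
      have hn : ‖f j - g j‖ ≤ B + lam / 8 :=
        (norm_sub_le _ _).trans (add_le_add (hB j hj) (hg1 j hj))
      rw [mem_closedBall, Subtype.dist_eq, dist_eq_norm]
      simpa using hn
    have := ht hmem
    simp only [mem_iUnion, mem_ball, exists_prop] at this
    obtain ⟨x, hx, hd⟩ := this
    refine ⟨x, hx, ?_⟩
    rw [Subtype.dist_eq, dist_eq_norm] at hd
    exact hd
  choose! q hq1 hq2 using hch
  obtain ⟨i, hi, j, hj, hij, hqij⟩ := hE.exists_ne_map_eq_of_mapsTo (f := q) (t := t) hq1 htf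
  have h1 := hq2 i hi
  have h2 := hq2 j hj
  rw [← hqij] at h2
  have h3 : f i - f j = (f i - g i - (q i : StrongDual ℝ X)) -
      (f j - g j - (q i : StrongDual ℝ X)) + (g i - g j) := by abel
  have h4 := hsep i j hij
  rw [h3] at h4
  have h5 := norm_add_le ((f i - g i - (q i : StrongDual ℝ X)) -
      (f j - g j - (q i : StrongDual ℝ X))) (g i - g j)
  have h6 := norm_sub_le (f i - g i - (q i : StrongDual ℝ X)) (f j - g j - (q i : StrongDual ℝ X))
  have h7 := norm_sub_le (g i) (g j)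
  linarith [hg1 i hi, hg1 j hj]

lemma wslim {Y : Type*} [NormedAddCommGroup Y] [NormedSpace ℝ Y] (φ : ℕ → StrongDual ℝ Y) (B : ℝ)
    (hB : ∀ k, ‖φ k‖ ≤ B) (𝒰 : Ultrafilter ℕ) :
    ∃ ψ : StrongDual ℝ Y, ∀ y, Tendsto (fun k => φ k y) 𝒰 (𝓝 (ψ y)) := by
  have hc := WeakDual.isCompact_closedBall (𝕜 := ℝ) (E := Y) (0 : StrongDual ℝ Y) B
  obtain ⟨ψ, hψ1, hψ⟩ := hc.ultrafilter_le_nhds'
    (𝒰.map (fun k => StrongDual.toWeakDual (φ k))) (by
      rw [Ultrafilter.mem_map]
      apply Filter.univ_mem'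
      intro k
      show φ k ∈ closedBall (0 : StrongDual ℝ Y) B
      rw [mem_closedBall_zero_iff]
      exact hB k)
  refine ⟨WeakDual.toStrongDual ψ, fun y => ?_⟩
  have h1 : Tendsto (fun x : WeakDual ℝ Y => x y) (𝓝 ψ) (𝓝 (ψ y)) :=
    (WeakDual.eval_continuous y).tendsto ψ
  have h2 : Tendsto (fun k => StrongDual.toWeakDual (φ k)) (𝒰 : Filter ℕ) (𝓝 ψ) := hψ
  exact h1.comp h2

lemma wlim (hrefl : Function.Surjective (NormedSpace.inclusionInDoubleDual ℝ X)) (x : ℕ → X)
    (R : ℝ) (hR : ∀ k, ‖x k‖ ≤ R) (𝒰 : Ultrafilter ℕ) :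
    ∃ z : X, ∀ g : StrongDual ℝ X, Tendsto (fun k => g (x k)) 𝒰 (𝓝 (g z)) := by
  obtain ⟨ψ, hψ⟩ := wslim (fun k => NormedSpace.inclusionInDoubleDual ℝ X (x k)) R
    (fun k => (NormedSpace.double_dual_bound ℝ X (x k)).trans (hR k)) 𝒰
  obtain ⟨z, rfl⟩ := hrefl ψ
  exact ⟨z, fun g => by simpa using hψ g⟩

lemma james (hrefl : Function.Surjective (NormedSpace.inclusionInDoubleDual ℝ X))
    (u : ℕ → X) (φ : ℕ → StrongDual ℝ X) (B κ : ℝ) (hκ : 0 < κ)
    (hu : ∀ k, ‖u k‖ ≤ 1) (hφ : ∀ k, ‖φ k‖ ≤ B)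
    (h1 : ∀ i k, i ≤ k → κ ≤ φ k (u i)) (h0 : ∀ i k, i < k → φ i (u k) = 0) : False := by
  obtain ⟨z, hz⟩ := wlim hrefl u 1 hu (hyperfilter ℕ)
  obtain ⟨ψ, hψ⟩ := wslim φ B hφ (hyperfilter ℕ)
  have hcof : ∀ m : ℕ, ∀ᶠ k in ((hyperfilter ℕ : Ultrafilter ℕ) : Filter ℕ), m < k := fun m =>
    (eventually_gt_atTop m).filter_mono Nat.hyperfilter_le_atTop
  have ha : ∀ i, φ i z = 0 := fun i =>
    tendsto_nhds_unique (hz (φ i)) (tendsto_const_nhds.congr'
      ((hcof i).mono fun k hk => (h0 i k hk).symm))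
  have hb : ψ z = 0 := tendsto_nhds_unique (hψ z) (by simp [ha])
  have hc : ∀ i, κ ≤ ψ (u i) := fun i =>
    ge_of_tendsto (hψ (u i)) ((hcof i).mono fun k hk => h1 i k hk.le)
  have hd : κ ≤ ψ z := ge_of_tendsto (hz ψ) (Eventually.of_forall hc)
  linarith

/-- the body cut out by the half-spaces `f j ≤ c j` -/
def C (f : ι → StrongDual ℝ X) (c : ι → ℝ) : Set X := {z | ∀ j, f j z ≤ c j}

/-- the indices active at `z` -/
def act (f : ι → StrongDual ℝ X) (c : ι → ℝ) (z : X) : Set ι := {j | f j z = c j}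

/-- nonsingular points -/
def ns (f : ι → StrongDual ℝ X) (c : ι → ℝ) (z : X) : Prop :=
  ∃ ε > 0, {j | c j - ε < f j z}.Finite

lemma act_fin {f : ι → StrongDual ℝ X} {c : ι → ℝ} {z : X} (h : ns f c z) :
    (act f c z).Finite := by
  obtain ⟨ε, hε, hf⟩ := h
  refine hf.subset fun j hj => ?_
  have : f j z = c j := hj
  show c j - ε < f j z
  linarith

lemma good {f : ι → StrongDual ℝ X} {c : ι → ℝ} {B : ℝ} (hB : 0 ≤ B) {p : X} (hp : p ∈ C f c)
    (hgrow : ∀ j, ‖f j‖ ≤ B * (1 + (c j - f j p))) (h : ns f c p) :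
    ∃ δ > 0, ∀ v, ‖v‖ ≤ δ → (∀ j ∈ act f c p, f j v = 0) → p + v ∈ C f c := by
  obtain ⟨ε, hε, hf⟩ := h
  have h1 : ∀ᶠ η in 𝓝[>] (0 : ℝ), ∀ j ∈ {j | c j - ε < f j p}, j ∉ act f c p →
      η ≤ c j - f j p := by
    rw [Filter.eventually_all_finite hf]
    intro j _
    by_cases hj : j ∈ act f c p
    · exact Eventually.of_forall fun η h => absurd hj h
    · have hlt : 0 < c j - f j p := by
        have h2 := hp j
        have h3 : f j p ≠ c j := hj
        have := lt_of_le_of_ne h2 h3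
        linarith
      have : ∀ᶠ η in 𝓝[>] (0 : ℝ), η ≤ c j - f j p := by
        have := (eventually_le_nhds hlt)
        exact this.filter_mono nhdsWithin_le_nhds
      exact this.mono fun η h _ => h
  have h2 : ∀ᶠ η in 𝓝[>] (0 : ℝ), η ≤ ε := (eventually_le_nhds hε).filter_mono nhdsWithin_le_nhds
  have h3 : ∀ᶠ η in 𝓝[>] (0 : ℝ), 0 < η := eventually_mem_nhdsWithin
  obtain ⟨η, ⟨hη1, hη2⟩, hη3⟩ := ((h1.and h2).and h3).exists
  have hgap : ∀ j, j ∉ act f c p → η ≤ c j - f j p := by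
    intro j hj
    by_cases hjT : c j - ε < f j p
    · exact hη1 j hjT hj
    · linarith
  set K := B * (1 / η + 1) with hK
  have hK0 : 0 ≤ K := by positivity
  refine ⟨1 / (K + 1), by positivity, fun v hv hv0 j => ?_⟩
  rw [map_add]
  by_cases hj : j ∈ act f c p
  · rw [hv0 j hj, add_zero]; exact hp j
  · have hg := hgap j hj
    set G := c j - f j p with hG
    have hGpos : 0 < G := lt_of_lt_of_le hη3 hg
    have h4 : ‖f j‖ ≤ K * G := by
      calc ‖f j‖ ≤ B * (1 + G) := hgrow j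
        _ ≤ B * ((1 / η + 1) * G) := by
            apply mul_le_mul_of_nonneg_left _ hB
            have : 1 ≤ 1 / η * G := by
              rw [one_div, inv_mul_eq_div, le_div_iff₀ hη3]; linarith
            nlinarith
        _ = K * G := by rw [hK]; ring
    have h5 : f j v ≤ G := by
      calc f j v ≤ ‖f j v‖ := le_abs_self _
        _ ≤ ‖f j‖ * ‖v‖ := (f j).le_opNorm v
        _ ≤ (K * G) * (1 / (K + 1)) := by gcongr
        _ = G * (K / (K + 1)) := by ring
        _ ≤ G * 1 := by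
            apply mul_le_mul_of_nonneg_left _ hGpos.le
            rw [div_le_one (by positivity)]; linarith
        _ = G := mul_one _
    have : f j p + G = c j := by rw [hG]; ring
    linarith

lemma C_closed (f : ι → StrongDual ℝ X) (c : ι → ℝ) : IsClosed (C f c) := by
  have : C f c = ⋂ j, {z | f j z ≤ c j} := by
    ext z; simp [C]
  rw [this]
  exact isClosed_iInter fun j => isClosed_le (f j).continuous continuous_const

lemma exit {f : ι → StrongDual ℝ X} {c : ι → ℝ} {B R : ℝ} (hB : 0 ≤ B)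
    (hR : ∀ z ∈ C f c, ‖z‖ ≤ R)
    (hgrow : ∀ z ∈ C f c, ∀ j, ‖f j‖ ≤ B * (1 + (c j - f j z)))
    (A : Set ι)
    (hcon : ∀ p ∈ C f c, ns f c p → ¬ (A ⊂ act f c p))
    {b u : X} (hb : b ∈ C f c) (hbA : A ⊆ act f c b) (hu : ‖u‖ = 1)
    (huA : ∀ j ∈ A, f j u = 0) :
    ∃ τ : ℝ, 0 ≤ τ ∧ b + τ • u ∈ C f c ∧ A ⊆ act f c (b + τ • u) ∧ ¬ ns f c (b + τ • u) := by
  set T : Set ℝ := {τ : ℝ | 0 ≤ τ ∧ b + τ • u ∈ C f c} with hT
  have hT0 : (0 : ℝ) ∈ T := ⟨le_rfl, by simpa using hb⟩
  have hTb : BddAbove T := by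
    refine ⟨R + ‖b‖, fun τ hτ => ?_⟩
    have h1 : ‖b + τ • u‖ ≤ R := hR _ hτ.2
    have h2 : ‖τ • u‖ = τ := by rw [norm_smul, hu, mul_one, Real.norm_of_nonneg hτ.1]
    have h3 : τ • u = (b + τ • u) - b := by abel
    have h4 := norm_sub_le (b + τ • u) b
    rw [← h3, h2] at h4
    linarith
  have hTc : IsClosed T := by
    have : T = {τ : ℝ | 0 ≤ τ} ∩ (fun τ : ℝ => b + τ • u) ⁻¹' (C f c) := rfl
    rw [this]
    exact (isClosed_le continuous_const continuous_id).inter
      ((C_closed f c).preimage (by fun_prop))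
  have hmem : sSup T ∈ T := hTc.csSup_mem ⟨0, hT0⟩ hTb
  have hAact : A ⊆ act f c (b + sSup T • u) := by
    intro j hj
    show f j (b + sSup T • u) = c j
    rw [map_add, map_smul, huA j hj, smul_zero, add_zero]
    exact hbA hj
  refine ⟨sSup T, hmem.1, hmem.2, hAact, fun hns => ?_⟩
  obtain ⟨δ, hδ, hgood⟩ := good hB hmem.2 (hgrow _ hmem.2) hns
  have hact : act f c (b + sSup T • u) ⊆ A := by
    by_contra hnot
    exact hcon _ hmem.2 hns ⟨hAact, hnot⟩
  have h5 : b + sSup T • u + δ • u ∈ C f c := by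
    apply hgood
    · rw [norm_smul, hu, mul_one, Real.norm_of_nonneg hδ.le]
    · intro j hj
      rw [map_smul, huA j (hact hj), smul_zero]
  have h6 : sSup T + δ ∈ T := by
    refine ⟨by linarith [hmem.1], ?_⟩
    rw [add_smul, ← add_assoc]; exact h5
  have := le_csSup hTb h6
  linarith


lemma exists_unit (f : ι → StrongDual ℝ X) (T : Set ι) (hT : T.Finite)
    (hinf : ¬ FiniteDimensional ℝ X) : ∃ u : X, ‖u‖ = 1 ∧ ∀ i ∈ T, f i u = 0 := by
  classical
  have : Finite T := hT
  by_contra hcon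
  push Not at hcon
  apply hinf
  let L : X →ₗ[ℝ] (T → ℝ) := LinearMap.pi (fun i : T => (f i : X →ₗ[ℝ] ℝ))
  have hL : Function.Injective L := by
    rw [← LinearMap.ker_eq_bot, LinearMap.ker_eq_bot']
    intro v hv
    by_contra hv0
    have hpos : 0 < ‖v‖ := norm_pos_iff.2 hv0
    obtain ⟨i, hi, hne⟩ := hcon ((‖v‖)⁻¹ • v)
      (by rw [norm_smul, norm_inv, norm_norm, inv_mul_cancel₀ hpos.ne'])
    apply hne
    have h1 : f i v = 0 := congrFun hv ⟨i, hi⟩
    rw [map_smul, h1, smul_zero]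
  exact Module.Finite.of_injective L hL

/-- the data carried along in the proof of `step` -/
structure St (ι X : Type*) where
  p : X
  ε : ℝ
  G : Set ι
  Us : Set X
  u : X
  j : ι

lemma step {f : ι → StrongDual ℝ X} {c : ι → ℝ} {lam B R : ℝ}
    (hrefl : Function.Surjective (NormedSpace.inclusionInDoubleDual ℝ X))
    (hlam : 0 < lam) (hB : 0 ≤ B)
    (hsep : ∀ i j, i ≠ j → lam ≤ ‖f i - f j‖)
    (hR : ∀ z ∈ C f c, ‖z‖ ≤ R)
    (hgrow : ∀ z ∈ C f c, ∀ j, ‖f j‖ ≤ B * (1 + (c j - f j z)))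
    (hinf : ¬ FiniteDimensional ℝ X)
    {y : X} (hy : y ∈ C f c) (hns : ns f c y) :
    ∃ p ∈ C f c, ns f c p ∧ act f c y ⊂ act f c p := by
  classical
  by_contra hcon0
  have hcon : ∀ p ∈ C f c, ns f c p → ¬ (act f c y ⊂ act f c p) := by
    intro p hp hnp hss
    exact hcon0 ⟨p, hp, hnp, hss⟩
  clear hcon0
  set A := act f c y with hA
  have hAfin : A.Finite := act_fin hns
  obtain ⟨s, hs, hsC⟩ := good hB hy (hgrow y hy) hns
  have hR0 : 0 ≤ R := (norm_nonneg y).trans (hR y hy)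
  set C₁ : ℝ := 8 * (2 + 4 * B * R) / lam with hC₁
  have hC₁pos : 0 < C₁ := by positivity
  set c₀ : ℝ := s * lam / (16 * C₁) with hc₀
  have hc₀pos : 0 < c₀ := by positivity
  have hinfns : ∀ p, ¬ ns f c p → ∀ ε > 0, {j | c j - ε < f j p}.Infinite := by
    intro p hp ε hε hfin
    exact hp ⟨ε, hε, hfin⟩
  have happ : ∀ (j : ι) (v : X) (a b : ℝ), ‖f j‖ ≤ a → ‖v‖ ≤ b → 0 ≤ a → f j v ≤ a * b := by
    intro j v a b h1 h2 ha
    calc f j v ≤ ‖f j v‖ := le_abs_self _
      _ ≤ ‖f j‖ * ‖v‖ := (f j).le_opNorm v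
      _ ≤ a * b := by gcongr
  -- bound on near-active gradients
  have hnear : ∀ p ∈ C f c, ∀ j, c j - 1 < f j p → ‖f j‖ ≤ 2 * B := by
    intro p hp j hj
    have h1 := hgrow p hp j
    have h2 : B * (1 + (c j - f j p)) ≤ B * 2 := by
      apply mul_le_mul_of_nonneg_left _ hB; linarith
    linarith
  -- a near-active index with a witness
  have hwit : ∀ p ∈ C f c, ¬ ns f c p → ∀ ε > 0, ∃ j, c j - ε < f j p ∧ ‖f j‖ ≤ 2 * B ∧
      ∃ z, (∀ i ∈ A, f i z = 0) ∧ ‖z‖ ≤ 1 ∧ lam / 8 ≤ f j z := by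
    intro p hp hpn ε hε
    have hε₁0 : 0 < min ε 1 := by positivity
    have hEinf := hinfns p hpn (min ε 1) hε₁0
    have hEB : ∀ j ∈ {j | c j - min ε 1 < f j p}, ‖f j‖ ≤ 2 * B := by
      intro j hj
      have h1 : c j - min ε 1 < f j p := hj
      have h2 : min ε 1 ≤ 1 := min_le_right _ _
      exact hnear p hp j (by linarith)
    obtain ⟨j, hj, z, hz, hz1, hzj⟩ := pigeon f hlam hsep A hAfin _ hEinf hEB
    have hj1 : c j - min ε 1 < f j p := hj
    have : min ε 1 ≤ ε := min_le_left _ _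
    exact ⟨j, by linarith, hEB j hj, z, hz, hz1.le, hzj⟩
  let Good : St ι X → Prop := fun S => S.p ∈ C f c ∧ A ⊆ act f c S.p ∧ ¬ ns f c S.p ∧ 0 < S.ε ∧
    S.G.Finite ∧ ∀ j, c j - S.ε < f j S.p →
      (∃ z, (∀ i ∈ A, f i z = 0) ∧ ‖z‖ ≤ 1 ∧ lam / 8 ≤ f j z) → ∀ v ∈ S.Us, c₀ ≤ f j v
  let Rel : St ι X → St ι X → Prop := fun S S' => S'.G = insert S'.j S.G ∧
    S'.Us = insert S'.u S.Us ∧ ‖S'.u‖ = 1 ∧ ‖f S'.j‖ ≤ 2 * B ∧ (∀ i ∈ S.G, f i S'.u = 0) ∧
    ∀ v ∈ S'.Us, c₀ ≤ f S'.j v
  have hstart : ∃ S, Good S := by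
    obtain ⟨u, hu1, huA⟩ := exists_unit f A hAfin hinf
    obtain ⟨τ, hτ0, hτC, hτA, hτn⟩ := exit hB hR hgrow A hcon hy (le_refl A) hu1 huA
    obtain ⟨j, hj⟩ := (hinfns _ hτn 1 one_pos).nonempty
    refine ⟨⟨y + τ • u, 1, ∅, ∅, 0, j⟩, hτC, hτA, hτn, one_pos, Set.finite_empty, ?_⟩
    intro j _ _ v hv
    exact absurd hv (Set.notMem_empty v)
  have hnext : ∀ S, Good S → ∃ S', Good S' ∧ Rel S S' := by
    rintro ⟨p, ε, G, Us, u₀, j₀⟩ ⟨hpC, hpA, hpn, hε, hGf, hcond⟩
    simp only at hpC hpA hpn hε hGf hcond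
    set K' : ℝ := 2 * B * (2 * R + C₁) with hK'
    have hK'0 : 0 ≤ K' := by positivity
    set t : ℝ := min 1 (ε / (2 * K' + 1)) with ht
    have ht0 : 0 < t := by positivity
    have ht1 : t ≤ 1 := min_le_left _ _
    have htK : K' * t ≤ ε / 2 := by
      have h1 : t ≤ ε / (2 * K' + 1) := min_le_right _ _
      have h2 : t * (2 * K' + 1) ≤ ε := by
        rwa [le_div_iff₀ (by positivity)] at h1
      nlinarith
    set E : Set ι := {j | c j - t < f j p} with hE
    have hEinf : E.Infinite := hinfns p hpn t ht0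
    have hEB : ∀ j ∈ E, ‖f j‖ ≤ 2 * B := by
      intro j hj
      have h1 : c j - t < f j p := hj
      exact hnear p hpC j (by linarith)
    obtain ⟨j₁, hj₁, u, hu, hu1, huj⟩ := pigeon f hlam hsep (A ∪ G) (hAfin.union hGf) E hEinf hEB
    have huA : ∀ i ∈ A, f i u = 0 := fun i hi => hu i (Or.inl hi)
    have huG : ∀ i ∈ G, f i u = 0 := fun i hi => hu i (Or.inr hi)
    set b : X := p + t • (y - p) with hb
    have hfb : ∀ j, f j b = (1 - t) * f j p + t * f j y := by
      intro j
      rw [hb, map_add, map_smul, map_sub, smul_eq_mul]; ring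
    have hbC : b ∈ C f c := by
      intro j
      rw [hfb j]
      have h1 := hpC j
      have h2 := hy j
      nlinarith
    have hbA : A ⊆ act f c b := by
      intro j hj
      show f j b = c j
      rw [hfb j]
      have h1 : f j p = c j := hpA hj
      have h2 : f j y = c j := hj
      rw [h1, h2]; ring
    obtain ⟨τ, hτ0, hτC, hτA, hτn⟩ := exit hB hR hgrow A hcon hbC hbA hu1 huA
    have hpy : ‖p - y‖ ≤ 2 * R := by
      have := (norm_sub_le p y).trans (add_le_add (hR p hpC) (hR y hy))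
      linarith
    -- upper bound for the exit time
    have hτle : τ ≤ C₁ * t := by
      have h1 := hτC j₁
      rw [map_add, map_smul, hfb, smul_eq_mul] at h1
      have h2 : c j₁ - t < f j₁ p := hj₁
      have h4 : f j₁ (p - y) ≤ 2 * B * (2 * R) := happ j₁ _ _ _ (hEB j₁ hj₁) hpy (by positivity)
      rw [map_sub] at h4
      have h6 : c j₁ - f j₁ y ≤ 1 + 4 * B * R := by linarith
      have h7 : τ * f j₁ u ≤ t * (2 + 4 * B * R) := by
        have h8 : τ * f j₁ u ≤ (1 - t) * (c j₁ - f j₁ p) + t * (c j₁ - f j₁ y) := by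
          linarith
        have h9 : (1 - t) * (c j₁ - f j₁ p) ≤ t := by
          have := hpC j₁
          nlinarith
        nlinarith
      have h10 : τ * (lam / 8) ≤ t * (2 + 4 * B * R) :=
        (mul_le_mul_of_nonneg_left huj hτ0).trans h7
      rw [hC₁]
      rw [div_mul_eq_mul_div, le_div_iff₀ hlam]
      linarith
    set p' : X := b + τ • u with hp'
    set ε' : ℝ := min 1 (min (ε / 2) (t * s * lam / 16)) with hε'
    have hε'0 : 0 < ε' := by positivity
    have hε'1 : ε' ≤ 1 := min_le_left _ _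
    have hε'2 : ε' ≤ ε / 2 := (min_le_right _ _).trans (min_le_left _ _)
    have hε'3 : ε' ≤ t * s * lam / 16 := (min_le_right _ _).trans (min_le_right _ _)
    have hcond' : ∀ j, c j - ε' < f j p' →
        (∃ z, (∀ i ∈ A, f i z = 0) ∧ ‖z‖ ≤ 1 ∧ lam / 8 ≤ f j z) →
        ∀ v ∈ insert u Us, c₀ ≤ f j v := by
      intro j hj hz
      have hjB : ‖f j‖ ≤ 2 * B := hnear p' hτC j (by linarith)
      have hdist : ‖p' - p‖ ≤ t * (2 * R) + C₁ * t := by
        have h1 : p' - p = t • (y - p) + τ • u := by rw [hp', hb]; abel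
        rw [h1]
        have h2 := norm_add_le (t • (y - p)) (τ • u)
        rw [norm_smul, norm_smul, hu1, mul_one, Real.norm_of_nonneg ht0.le,
          Real.norm_of_nonneg hτ0] at h2
        have h3 : ‖y - p‖ ≤ 2 * R := by rw [norm_sub_rev]; exact hpy
        have h4 : t * ‖y - p‖ ≤ t * (2 * R) := mul_le_mul_of_nonneg_left h3 ht0.le
        linarith
      have hjp : c j - ε < f j p := by
        have h1 : f j (p' - p) ≤ K' * t := by
          have := happ j (p' - p) _ _ hjB hdist (by positivity)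
          have e : 2 * B * (t * (2 * R) + C₁ * t) = K' * t := by rw [hK']; ring
          rwa [e] at this
        rw [map_sub] at h1
        linarith
      rintro v (rfl | hv)
      · obtain ⟨z, hzM, hz1, hzj⟩ := hz
        have h3 : y + s • z ∈ C f c := by
          apply hsC
          · rw [norm_smul, Real.norm_of_nonneg hs.le]
            nlinarith
          · intro i hi
            rw [map_smul, hzM i hi, smul_zero]
        have h4 := h3 j
        rw [map_add, map_smul, smul_eq_mul] at h4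
        have h5 : s * (lam / 8) ≤ c j - f j y := by nlinarith
        have h6 : c j - ε' < (1 - t) * f j p + t * f j y + τ * f j v := by
          have := hj
          rw [hp', map_add, map_smul, hfb, smul_eq_mul] at this
          exact this
        have h7 : (1 - t) * f j p ≤ (1 - t) * c j :=
          mul_le_mul_of_nonneg_left (hpC j) (by linarith)
        have h8 : t * (s * (lam / 8)) ≤ t * (c j - f j y) :=
          mul_le_mul_of_nonneg_left h5 ht0.le
        have h9 : t * s * lam / 16 ≤ τ * f j v := by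
          have : t * (s * (lam / 8)) = t * s * lam / 8 := by ring
          linarith
        have h10 : 0 < f j v := by
          by_contra hneg
          push Not at hneg
          have : τ * f j v ≤ 0 := mul_nonpos_of_nonneg_of_nonpos hτ0 hneg
          have : 0 < t * s * lam / 16 := by positivity
          linarith
        have h11 : t * s * lam / 16 ≤ C₁ * t * f j v :=
          h9.trans (mul_le_mul_of_nonneg_right hτle h10.le)
        rw [hc₀, div_le_iff₀ (by positivity)]
        have h12 : t * (s * lam / 16) ≤ t * (C₁ * f j v) := by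
          have e1 : t * s * lam / 16 = t * (s * lam / 16) := by ring
          have e2 : C₁ * t * f j v = t * (C₁ * f j v) := by ring
          rw [← e1, ← e2]; exact h11
        have h13 := le_of_mul_le_mul_left h12 ht0
        linarith
      · exact hcond j hjp hz v hv
    obtain ⟨j, hjne, hjB, hjz⟩ := hwit p' hτC hτn ε' hε'0
    refine ⟨⟨p', ε', insert j G, insert u Us, u, j⟩,
      ⟨hτC, hτA, hτn, hε'0, hGf.insert j, hcond'⟩, rfl, rfl, hu1, hjB, huG, ?_⟩
    exact hcond' j hjne hjz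
  choose! next hnextG hnextR using hnext
  obtain ⟨S0, hS0⟩ := hstart
  let S : ℕ → St ι X := fun n => Nat.rec S0 (fun _ T => next T) n
  have hSG : ∀ n, Good (S n) := by
    intro n
    induction n with
    | zero => exact hS0
    | succ n ih => exact hnextG _ ih
  have hSR : ∀ n, Rel (S n) (S (n + 1)) := fun n => hnextR _ (hSG n)
  have hUs : ∀ i k, i ≤ k → (S (i + 1)).u ∈ (S (k + 1)).Us := by
    intro i k hik
    induction k, hik using Nat.le_induction with
    | base => rw [(hSR i).2.1]; exact mem_insert _ _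
    | succ k hk ih => rw [(hSR (k + 1)).2.1]; exact mem_insert_of_mem _ ih
  have hGs : ∀ i k, i ≤ k → (S (i + 1)).j ∈ (S (k + 1)).G := by
    intro i k hik
    induction k, hik using Nat.le_induction with
    | base => rw [(hSR i).1]; exact mem_insert _ _
    | succ k hk ih => rw [(hSR (k + 1)).1]; exact mem_insert_of_mem _ ih
  refine james hrefl (fun k => (S (k + 1)).u) (fun k => f (S (k + 1)).j) (2 * B) c₀ hc₀pos
    (fun k => (hSR k).2.2.1.le) (fun k => (hSR k).2.2.2.1) ?_ ?_
  · intro i k hik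
    exact (hSR k).2.2.2.2.2 _ (hUs i k hik)
  · intro i k hik
    obtain ⟨k', rfl⟩ := Nat.exists_eq_succ_of_ne_zero (by omega : k ≠ 0)
    exact (hSR (k' + 1)).2.2.2.2.1 _ (hGs i k' (by omega))

theorem core {f : ι → StrongDual ℝ X} {c : ι → ℝ} {lam B R : ℝ}
    (hrefl : Function.Surjective (NormedSpace.inclusionInDoubleDual ℝ X))
    (hinf : ¬ FiniteDimensional ℝ X)
    (hlam : 0 < lam) (hB : 0 ≤ B)
    (hsep : ∀ i j, i ≠ j → lam ≤ ‖f i - f j‖)
    (hR : ∀ z ∈ C f c, ‖z‖ ≤ R)
    (hgrow : ∀ z ∈ C f c, ∀ j, ‖f j‖ ≤ B * (1 + (c j - f j z)))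
    {y₀ : X} (hy₀ : y₀ ∈ C f c) (hns₀ : ns f c y₀) :
    ∃ z ∈ C f c, (act f c z).Infinite := by
  classical
  have hst : ∀ y : {y // y ∈ C f c ∧ ns f c y}, ∃ p : {y // y ∈ C f c ∧ ns f c y},
      act f c y.1 ⊂ act f c p.1 := by
    intro y
    obtain ⟨p, hp1, hp2, hp3⟩ := step hrefl hlam hB hsep hR hgrow hinf y.2.1 y.2.2
    exact ⟨⟨p, hp1, hp2⟩, hp3⟩
  choose next hnextact using hst
  obtain ⟨s, hs⟩ : ∃ s : ℕ → {y // y ∈ C f c ∧ ns f c y},
      ∀ n, act f c (s n).1 ⊂ act f c (s (n + 1)).1 := by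
    refine ⟨fun n => Nat.rec (motive := fun _ => {y // y ∈ C f c ∧ ns f c y})
      ⟨y₀, hy₀, hns₀⟩ (fun _ y => next y) n, fun n => ?_⟩
    exact hnextact _
  obtain ⟨z, hz⟩ := wlim hrefl (fun k => (s k).1) R (fun k => hR _ (s k).2.1) (hyperfilter ℕ)
  refine ⟨z, fun j => le_of_tendsto (hz (f j)) (Eventually.of_forall fun k => (s k).2.1 j),
    fun hfin => ?_⟩
  have hmono : Monotone (fun n => act f c (s n).1) := monotone_nat_of_le_succ fun n => (hs n).1
  have hsub : ∀ n, act f c (s n).1 ⊆ act f c z := by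
    intro n j hj
    show f j z = c j
    refine tendsto_nhds_unique (hz (f j)) (tendsto_const_nhds.congr' ?_)
    have : ∀ᶠ k in ((hyperfilter ℕ : Ultrafilter ℕ) : Filter ℕ), n ≤ k :=
      (eventually_ge_atTop n).filter_mono Nat.hyperfilter_le_atTop
    exact this.mono fun k hk => (hmono hk hj : f j (s k).1 = c j).symm
  have hcard : ∀ n, n ≤ (act f c (s n).1).ncard := by
    intro n
    induction n with
    | zero => exact Nat.zero_le _
    | succ n ih =>
      have := Set.ncard_lt_ncard (hs n) (act_fin (s (n + 1)).2.2)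
      omega
  have h1 := hcard ((act f c z).ncard + 1)
  have h2 := Set.ncard_le_ncard (hsub ((act f c z).ncard + 1)) hfin
  omega


lemma norm_le_of_unit (g : StrongDual ℝ X) (M : ℝ) (h : ∀ v, ‖v‖ ≤ 1 → g v ≤ M) : ‖g‖ ≤ M := by
  have hM : 0 ≤ M := by
    have := h 0 (by simp)
    simpa using this
  refine ContinuousLinearMap.opNorm_le_bound _ hM fun x => ?_
  by_cases hx : x = 0
  · simp [hx]
  · have hpos : 0 < ‖x‖ := norm_pos_iff.2 hx
    have hn : ‖(‖x‖)⁻¹ • x‖ ≤ 1 := by
      rw [norm_smul, norm_inv, norm_norm, inv_mul_cancel₀ hpos.ne']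
    have h1 := h _ hn
    have h2 := h (-((‖x‖)⁻¹ • x)) (by rw [norm_neg]; exact hn)
    rw [map_neg] at h2
    rw [map_smul, smul_eq_mul] at h1 h2
    have e : g x = ‖x‖ * (‖x‖⁻¹ * g x) := by field_simp
    rw [Real.norm_eq_abs, abs_le]
    constructor
    · rw [e]; nlinarith
    · rw [e]; nlinarith

/-- The cell of index `i` of the family of affine functions `z ↦ a j z - α j`: the set where the
`i`-th function is the largest one. -/
def Cell (a : ι → StrongDual ℝ X) (α : ι → ℝ) (i : ι) : Set X :=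
  {z | ∀ j, a j z - α j ≤ a i z - α i}

theorem coherent (hrefl : Function.Surjective (NormedSpace.inclusionInDoubleDual ℝ X))
    (hinf : ¬ FiniteDimensional ℝ X) (a : ι → StrongDual ℝ X) (α : ι → ℝ) {lam : ℝ}
    (hlam : 0 < lam) (hsep : ∀ i j, i ≠ j → lam ≤ ‖a i - a j‖)
    (hbdd : ∀ ρ : ℝ, ∃ K : ℝ, ∀ z, ‖z‖ ≤ ρ → ∀ j, a j z - α j ≤ K) (i : ι)
    (hb : Bornology.IsBounded (Cell a α i)) (hint : (interior (Cell a α i)).Nonempty) :
    ∃ z ∈ Cell a α i, {j | z ∈ Cell a α j}.Infinite := by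
  classical
  set f : ι → StrongDual ℝ X := fun j => a j - a i with hf
  set c : ι → ℝ := fun j => α j - α i with hc
  have hCeq : ∀ z, z ∈ C f c ↔ z ∈ Cell a α i := by
    intro z
    constructor
    · intro h j
      have : a j z - a i z ≤ α j - α i := h j
      linarith
    · intro h j
      show a j z - a i z ≤ α j - α i
      have := h j
      linarith
  obtain ⟨R, hR⟩ := hb.exists_norm_le
  have hR' : ∀ z ∈ C f c, ‖z‖ ≤ R := fun z hz => hR z ((hCeq z).1 hz)
  obtain ⟨K, hK⟩ := hbdd (R + 1)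
  set B : ℝ := max 1 (K + ‖a i‖ * R + |α i| + ‖a i‖) with hB
  have hB1 : 1 ≤ B := le_max_left _ _
  have hB2 : K + ‖a i‖ * R + |α i| + ‖a i‖ ≤ B := le_max_right _ _
  have hgrow : ∀ z ∈ C f c, ∀ j, ‖f j‖ ≤ B * (1 + (c j - f j z)) := by
    intro z hz j
    have hzR := hR' z hz
    have h1 : ‖a j‖ ≤ K - (a j z - α j) := by
      apply norm_le_of_unit
      intro v hv
      have := hK (z + v) ((norm_add_le z v).trans (add_le_add hzR hv)) j
      rw [map_add] at this
      linarith
    have h2 : ‖f j‖ ≤ ‖a j‖ + ‖a i‖ := norm_sub_le _ _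
    have h3 : -(a i z) ≤ ‖a i‖ * R := by
      calc -(a i z) ≤ |a i z| := neg_le_abs _
        _ = ‖a i z‖ := rfl
        _ ≤ ‖a i‖ * ‖z‖ := (a i).le_opNorm z
        _ ≤ ‖a i‖ * R := by gcongr
    have h4 : α i ≤ |α i| := le_abs_self _
    have hgap : 0 ≤ c j - f j z := by have := hz j; linarith
    have e : c j - f j z = (a i z - α i) - (a j z - α j) := by
      show α j - α i - (a j z - a i z) = _
      ring
    nlinarith
  obtain ⟨y₀, hy₀⟩ := hint
  obtain ⟨r, hr, hball⟩ := Metric.isOpen_iff.1 isOpen_interior y₀ hy₀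
  have hy₀C : y₀ ∈ C f c := (hCeq y₀).2 (interior_subset hy₀)
  have hns : ns f c y₀ := by
    refine ⟨r / 2 * lam, by positivity, (Set.finite_singleton i).subset fun j hj => ?_⟩
    by_contra hne
    have hne' : j ≠ i := hne
    have h1 : ‖f j‖ ≤ (c j - f j y₀) / (r / 2) := by
      apply norm_le_of_unit
      intro v hv
      rw [le_div_iff₀ (by positivity)]
      have h2 : y₀ + (r / 2) • v ∈ C f c := by
        rw [hCeq]
        apply interior_subset
        apply hball
        rw [mem_ball, dist_eq_norm, add_sub_cancel_left, norm_smul,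
          Real.norm_of_nonneg (by positivity)]
        nlinarith
      have h3 := h2 j
      rw [map_add, map_smul, smul_eq_mul] at h3
      linarith
    have h2 : lam ≤ ‖f j‖ := hsep j i hne'
    have h3 : c j - r / 2 * lam < f j y₀ := hj
    have h4 : lam ≤ (c j - f j y₀) / (r / 2) := h2.trans h1
    rw [le_div_iff₀ (by positivity)] at h4
    linarith
  have hsep' : ∀ j k, j ≠ k → lam ≤ ‖f j - f k‖ := by
    intro j k hjk
    have : f j - f k = a j - a k := by simp [hf]
    rw [this]; exact hsep j k hjk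
  obtain ⟨z, hz, hinfz⟩ := core hrefl hinf hlam (by linarith : (0 : ℝ) ≤ B) hsep' hR' hgrow hy₀C hns
  refine ⟨z, (hCeq z).1 hz, hinfz.mono fun j hj k => ?_⟩
  have h1 : a j z - a i z = α j - α i := hj
  have h2 := (hCeq z).1 hz k
  linarith

end core

section hilbert

open scoped InnerProductSpace

variable {ι X : Type*} [NormedAddCommGroup X] [InnerProductSpace ℝ X]

lemma hilbert_refl [CompleteSpace X] :
    Function.Surjective (NormedSpace.inclusionInDoubleDual ℝ X) := by
  intro ψ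
  set D := InnerProductSpace.toDual ℝ X with hD
  let φ : StrongDual ℝ X := LinearMap.mkContinuous
    { toFun := fun x => ψ (D x)
      map_add' := fun x y => by rw [map_add, map_add]
      map_smul' := fun t x => by
        rw [LinearIsometryEquiv.map_smulₛₗ, map_smul]; simp } ‖ψ‖ (fun x => by
          have h := ψ.le_opNorm (D x)
          rw [LinearIsometryEquiv.norm_map] at h
          exact h)
  refine ⟨D.symm φ, ?_⟩
  ext g
  obtain ⟨x, rfl⟩ := D.surjective g
  have h1 : ψ (D x) = φ x := rfl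
  rw [h1, NormedSpace.dual_def]
  have h2 : φ x = ⟪D.symm φ, x⟫_ℝ := by
    rw [hD, InnerProductSpace.toDual_symm_apply]
  rw [h2, hD, InnerProductSpace.toDual_apply_apply, real_inner_comm]

/-- The power cell (with the Hilbert norm) of the `i`-th site `d i` with weight `w i`; for `w = 0`
the Voronoi cell. -/
def PCell (d : ι → X) (w : ι → ℝ) (i : ι) : Set X :=
  {z | ∀ j, ‖z - d i‖ ^ 2 - w i ≤ ‖z - d j‖ ^ 2 - w j}

theorem power [CompleteSpace X] (hinf : ¬ FiniteDimensional ℝ X) (d : ι → X) (w : ι → ℝ)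
    {lam W : ℝ} (hlam : 0 < lam) (hsep : ∀ i j, i ≠ j → lam ≤ ‖d i - d j‖) (hW : ∀ i, w i ≤ W)
    (i : ι) (hb : Bornology.IsBounded (PCell d w i)) (hint : (interior (PCell d w i)).Nonempty) :
    ∃ z ∈ PCell d w i, {j | z ∈ PCell d w j}.Infinite := by
  set a : ι → StrongDual ℝ X := fun j => innerSL ℝ ((2 : ℝ) • d j) with ha
  set α : ι → ℝ := fun j => ‖d j‖ ^ 2 - w j with hα
  have hval : ∀ j z, a j z - α j = ‖z‖ ^ 2 - (‖z - d j‖ ^ 2 - w j) := by
    intro j z
    have h1 : a j z = 2 * ⟪d j, z⟫_ℝ := by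
      simp [ha]
    rw [h1, norm_sub_sq_real, real_inner_comm]
    simp only [hα]
    ring
  have hcell : ∀ j, Cell a α j = PCell d w j := by
    intro j
    ext z
    constructor
    · intro h k
      have := h k
      rw [hval, hval] at this
      linarith
    · intro h k
      have := h k
      rw [hval, hval]
      linarith
  have hsep' : ∀ i j, i ≠ j → 2 * lam ≤ ‖a i - a j‖ := by
    intro i j hij
    have h1 : a i - a j = innerSL ℝ ((2 : ℝ) • (d i - d j)) := by
      simp only [ha]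
      rw [smul_sub, map_sub]
    rw [h1, innerSL_apply_norm, norm_smul, Real.norm_of_nonneg (by norm_num)]
    have := hsep i j hij
    linarith
  have hbdd : ∀ ρ : ℝ, ∃ K : ℝ, ∀ z, ‖z‖ ≤ ρ → ∀ j, a j z - α j ≤ K := by
    intro ρ
    refine ⟨ρ ^ 2 + W, fun z hz j => ?_⟩
    rw [hval]
    have h1 : ‖z‖ ^ 2 ≤ ρ ^ 2 := pow_le_pow_left₀ (norm_nonneg _) hz 2
    have h2 := hW j
    have h3 : 0 ≤ ‖z - d j‖ ^ 2 := by positivity
    linarith
  have hfin := coherent hilbert_refl hinf a α (by positivity : 0 < 2 * lam) hsep' hbdd i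
    (by rw [hcell]; exact hb) (by rw [hcell]; exact hint)
  simpa only [hcell] using hfin

end hilbert

/-- `ℓ₂(Γ)` -/
abbrev ell2 (Γ : Type*) := lp (fun _ : Γ => ℝ) 2

/-- `N` is a norm on the real normed space `X` which is equivalent to the given one. -/
structure IsEquivNorm {X : Type*} [NormedAddCommGroup X] [NormedSpace ℝ X] (N : X → ℝ) : Prop where
  add_le : ∀ x y, N (x + y) ≤ N x + N y
  smul_eq : ∀ (t : ℝ) (x : X), N (t • x) = |t| * N x
  lower : ∃ c > 0, ∀ x, c * ‖x‖ ≤ N x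
  upper : ∃ c : ℝ, ∀ x, N x ≤ c * ‖x‖

lemma ell2_inf (Γ : Type*) [Infinite Γ] : ¬ FiniteDimensional ℝ (ell2 Γ) := by
  intro h
  let b : HilbertBasis Γ ℝ (ell2 Γ) := HilbertBasis.ofRepr (LinearIsometryEquiv.refl ℝ _)
  have hli := b.orthonormal.linearIndependent
  have := hli.finite
  exact not_finite Γ

/-- The family `a` is separated: its members have mutual distances at least some `lam > 0`. -/
def Separated {ι Y : Type*} [NormedAddCommGroup Y] (a : ι → Y) : Prop :=
  ∃ lam : ℝ, 0 < lam ∧ ∀ i j, i ≠ j → lam ≤ ‖a i - a j‖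

/-- The supremum of the affine functions `a j - α j` is bounded above on bounded sets. -/
def BoundedOnBounded {ι X : Type*} [NormedAddCommGroup X] [NormedSpace ℝ X]
    (a : ι → StrongDual ℝ X) (α : ι → ℝ) : Prop :=
  ∀ ρ : ℝ, ∃ K : ℝ, ∀ z, ‖z‖ ≤ ρ → ∀ j, a j z - α j ≤ K

/-- Statement (A): cells of affine families in reflexive spaces. -/
def CellsInReflexiveSpaces.{u, v} : Prop :=
  ∀ (ι : Type u) (X : Type v) [NormedAddCommGroup X] [NormedSpace ℝ X],
    Function.Surjective (NormedSpace.inclusionInDoubleDual ℝ X) → ¬ FiniteDimensional ℝ X →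
    ∀ (a : ι → StrongDual ℝ X) (α : ι → ℝ), Separated a → BoundedOnBounded a α →
    ∀ i, Bornology.IsBounded (Cell a α i) → (interior (Cell a α i)).Nonempty →
    ∃ z ∈ Cell a α i, {j | z ∈ Cell a α j}.Infinite

/-- Statement (B): Voronoi cells in Hilbert spaces. -/
def VoronoiCellsInHilbertSpaces.{v} : Prop :=
  ∀ (X : Type v) [NormedAddCommGroup X] [InnerProductSpace ℝ X] [CompleteSpace X],
    ¬ FiniteDimensional ℝ X → ∀ (D : Set X), Separated (fun e : D => (e : X)) →
    ∀ d ∈ D, Bornology.IsBounded {z : X | ∀ e ∈ D, ‖z - d‖ ≤ ‖z - e‖} →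
    ∃ z, (∀ e ∈ D, ‖z - d‖ ≤ ‖z - e‖) ∧ {e ∈ D | ‖z - e‖ = ‖z - d‖}.Infinite

/-- Statement (C): families of balls of `ℓ₂(Γ)` in an equivalent norm. -/
def BallsInEll2.{u, w} : Prop :=
  ∀ (Γ : Type w) [Infinite Γ] (N : ell2 Γ → ℝ), IsEquivNorm N →
    ∀ (ι : Type u) (x : ι → ell2 Γ) (r : ι → ℝ), (∀ i, 0 < r i) →
    ∀ (d : ι → ell2 Γ) (wt : ι → ℝ), Separated d → BddAbove (Set.range wt) →
    (∀ i, {z | N (z - x i) ≤ r i} = PCell d wt i) →
    ∀ i, ∃ z, N (z - x i) ≤ r i ∧ {j | N (z - x j) ≤ r j}.Infinite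

/-- **Main theorem.** -/
theorem result.{u, v, w} : CellsInReflexiveSpaces.{u, v} ∧ VoronoiCellsInHilbertSpaces.{v} ∧
    BallsInEll2.{u, w} := by
  refine ⟨?_, ?_, ?_⟩
  · intro ι X _ _ hrefl hinf a α hsep hbdd i hb hint
    obtain ⟨lam, hlam, hsep⟩ := hsep
    exact coherent hrefl hinf a α hlam hsep hbdd i hb hint
  · intro X _ _ _ hinf D hsep0 d hd hb
    obtain ⟨lam, hlam, hsep1⟩ := hsep0
    have hsep : ∀ d ∈ D, ∀ e ∈ D, d ≠ e → lam ≤ ‖d - e‖ := fun d hd e he hde =>
      hsep1 ⟨d, hd⟩ ⟨e, he⟩ (fun h => hde (congrArg Subtype.val h))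
    have hset : PCell (fun e : D => (e : X)) (fun _ => 0) ⟨d, hd⟩ =
        {z : X | ∀ e ∈ D, ‖z - d‖ ≤ ‖z - e‖} := by
      ext z
      constructor
      · intro h e he
        have := h ⟨e, he⟩
        simp only [sub_zero] at this
        exact (sq_le_sq₀ (norm_nonneg _) (norm_nonneg _)).1 this
      · intro h e
        have := h e e.2
        simp only [sub_zero]
        exact (sq_le_sq₀ (norm_nonneg _) (norm_nonneg _)).2 this
    have hint : (interior (PCell (fun e : D => (e : X)) (fun _ => 0) ⟨d, hd⟩)).Nonempty := by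
      refine ⟨d, ?_⟩
      rw [mem_interior_iff_mem_nhds, Metric.mem_nhds_iff]
      refine ⟨lam / 2, by positivity, fun z hz => ?_⟩
      rw [hset]
      intro e he
      rw [mem_ball, dist_eq_norm] at hz
      by_cases hde : d = e
      · rw [hde]
      · have h1 := hsep d hd e he hde
        have h2 : ‖d - e‖ ≤ ‖z - d‖ + ‖z - e‖ := by
          have : d - e = (z - e) - (z - d) := by abel
          rw [this]
          have := norm_sub_le (z - e) (z - d)
          linarith
        linarith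
    obtain ⟨z, hz, hzinf⟩ := power hinf (fun e : D => (e : X)) (fun _ => 0) hlam
      (fun i j hij => hsep i i.2 j j.2 (fun h => hij (Subtype.ext h))) (W := 0) (fun _ => le_rfl)
      ⟨d, hd⟩ (by rw [hset]; exact hb) hint
    have hzd : ∀ e ∈ D, ‖z - d‖ ≤ ‖z - e‖ := by
      rw [hset] at hz; exact hz
    refine ⟨z, hzd, ?_⟩
    have himg : ((fun e : D => (e : X)) '' {j | z ∈ PCell (fun e : D => (e : X)) (fun _ => 0) j}).Infinite :=
      hzinf.image (fun a _ b _ h => Subtype.ext h)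
    refine himg.mono ?_
    rintro _ ⟨e, he, rfl⟩
    refine ⟨e.2, le_antisymm ?_ (hzd e e.2)⟩
    have := he ⟨d, hd⟩
    simp only [sub_zero] at this
    exact (sq_le_sq₀ (norm_nonneg _) (norm_nonneg _)).1 this
  · intro Γ _ N hN ι x r hr d wt hsep0 hW0 hcell i
    obtain ⟨lam, hlam, hsep⟩ := hsep0
    obtain ⟨W, hW1⟩ := hW0
    have hW : ∀ i, wt i ≤ W := fun i => hW1 ⟨i, rfl⟩
    obtain ⟨c, hc, hlow⟩ := hN.lower
    obtain ⟨c', hup⟩ := hN.upper
    have hb : Bornology.IsBounded (PCell d wt i) := by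
      rw [← hcell i, isBounded_iff_forall_norm_le]
      refine ⟨r i / c + ‖x i‖, fun z hz => ?_⟩
      have h1 : c * ‖z - x i‖ ≤ r i := (hlow _).trans hz
      have h2 : ‖z - x i‖ ≤ r i / c := by rw [le_div_iff₀ hc]; linarith
      have h3 : ‖z‖ ≤ ‖z - x i‖ + ‖x i‖ := by
        have := norm_add_le (z - x i) (x i)
        simpa using this
      linarith
    have hint : (interior (PCell d wt i)).Nonempty := by
      refine ⟨x i, ?_⟩
      rw [mem_interior_iff_mem_nhds, Metric.mem_nhds_iff]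
      refine ⟨r i / (max c' 1), by have := hr i; positivity, fun z hz => ?_⟩
      rw [← hcell i]
      rw [mem_ball, dist_eq_norm, lt_div_iff₀ (by positivity)] at hz
      have h1 : N (z - x i) ≤ max c' 1 * ‖z - x i‖ :=
        (hup _).trans (mul_le_mul_of_nonneg_right (le_max_left _ _) (norm_nonneg _))
      show N (z - x i) ≤ r i
      linarith
    obtain ⟨z, hz, hzinf⟩ := power (ell2_inf Γ) d wt hlam hsep hW i hb hint
    refine ⟨z, ?_, ?_⟩
    · rw [← hcell i] at hz; exact hz
    · refine hzinf.mono fun j hj => ?_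
      rw [Set.mem_ofPred_eq, ← hcell j] at hj
      exact hj

end Pool.Agent.Results.MP_73700b_an.CoherentTilings
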